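import Mathlib

/-!
A Remez inequality for bounded analytic functions, by divided differences.
-/

set_option autoImplicit false

open MeasureTheory Filter Topology Set Complex
open scoped ENNReal

namespace Pool.Agent.K4H72.TS

theorem rem_ind {s : ℝ} (hs : 0 < s) (hs1 : s ≤ 1) : ∀ (n : ℕ) (f : ℂ → ℂ) (m δ : ℝ) (E : Set ℝ),
    0 ≤ δ → DifferentiableOn ℂ f (Metric.ball 0 8) → (∀ z : ℂ, ‖z‖ ≤ 7 → ‖f z‖ ≤ m) →
    (∀ x ∈ E, |x| ≤ 1 ∧ ‖f (x : ℂ)‖ ≤ δ) → ENNReal.ofReal (2 * n * s) < volume E →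
    ∀ w : ℂ, ‖w‖ ≤ 1 → ‖f w‖ ≤ (2 / 3) ^ n * m + (8 / s) ^ n * δ := by
  intro n
  induction n with
  | zero =>
    intro f m δ E hδ hf hm hE hv w hw
    rw [pow_zero, pow_zero, one_mul, one_mul]
    have := hm w (by linarith)
    linarith
  | succ n ih =>
    intro f m δ E hδ hf hm hE hv w hw
    have hm0 : 0 ≤ m := (norm_nonneg _).trans (hm 0 (by rw [norm_zero]; norm_num))
    have hne : E.Nonempty := by
      rw [Set.nonempty_iff_ne_empty]
      rintro rfl
      simp at hv
    obtain ⟨x0, hx0⟩ := hne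
    obtain ⟨hx1, hx2⟩ := hE x0 hx0
    set c : ℂ := (x0 : ℂ) with hc
    have hcn : ‖c‖ ≤ 1 := by rw [hc, Complex.norm_real]; exact hx1
    set g : ℂ → ℂ := dslope f c with hg
    have hgd : DifferentiableOn ℂ g (Metric.ball 0 8) := by
      refine (Complex.differentiableOn_dslope ?_).2 hf
      refine Metric.isOpen_ball.mem_nhds ?_
      rw [mem_ball_zero_iff]
      linarith
    have hgv : ∀ z : ℂ, z ≠ c → g z = (f z - f c) / (z - c) := by
      intro z hz
      rw [hg, dslope_of_ne _ hz, slope_def_field]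
    have hgm : ∀ z : ℂ, ‖z‖ ≤ 7 → ‖g z‖ ≤ m / 3 := by
      intro z hz
      have hfr : ∀ y ∈ frontier (Metric.ball (0:ℂ) 7), ‖g y‖ ≤ m / 3 := by
        intro y hy
        rw [frontier_ball _ (by norm_num), mem_sphere_zero_iff_norm] at hy
        have h1 : 6 ≤ ‖y - c‖ := by
          have := norm_sub_norm_le y c
          linarith
        have hyc : y ≠ c := by
          intro h
          rw [h, sub_self, norm_zero] at h1
          linarith
        rw [hgv y hyc, norm_div, div_le_iff₀ (by linarith)]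
        have h2 : ‖f y - f c‖ ≤ m + m := (norm_sub_le _ _).trans (add_le_add (hm y hy.le) (hm c (by linarith)))
        nlinarith
      have hsub : Metric.closedBall (0:ℂ) 7 ⊆ Metric.ball 0 8 := Metric.closedBall_subset_ball (by norm_num)
      have hd : DiffContOnCl ℂ g (Metric.ball 0 7) := by
        apply DifferentiableOn.diffContOnCl
        exact hgd.mono (Metric.closure_ball_subset_closedBall.trans hsub)
      refine Complex.norm_le_of_forall_mem_frontier_norm_le Metric.isBounded_ball hd hfr ?_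
      rw [closure_ball _ (by norm_num), mem_closedBall_zero_iff]
      exact hz
    set E1 : Set ℝ := E \ Ioo (x0 - s) (x0 + s) with hE1
    have hE1b : ∀ x ∈ E1, |x| ≤ 1 ∧ ‖g (x : ℂ)‖ ≤ 2 * δ / s := by
      intro x hx
      obtain ⟨h1, h2⟩ := hE x hx.1
      refine ⟨h1, ?_⟩
      have h3 : s ≤ |x - x0| := by
        by_contra h
        push Not at h
        rw [abs_lt] at h
        exact hx.2 ⟨by linarith, by linarith⟩
      have hne : (x : ℂ) ≠ c := by
        intro h
        rw [hc] at h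
        have := Complex.ofReal_injective h
        rw [this, sub_self, abs_zero] at h3
        linarith
      rw [hgv _ hne, norm_div, hc, ← Complex.ofReal_sub, Complex.norm_real, Real.norm_eq_abs]
      have h4 : ‖f (x : ℂ) - f (x0 : ℂ)‖ ≤ 2 * δ := by
        refine (norm_sub_le _ _).trans ?_
        linarith
      calc ‖f (x : ℂ) - f (x0 : ℂ)‖ / |x - x0| ≤ 2 * δ / |x - x0| :=
            div_le_div_of_nonneg_right h4 (abs_nonneg _)
        _ ≤ 2 * δ / s := div_le_div_of_nonneg_left (by linarith) hs h3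
    have hvE1 : ENNReal.ofReal (2 * n * s) < volume E1 := by
      have h1 : volume E - volume (Ioo (x0 - s) (x0 + s)) ≤ volume E1 := le_measure_sdiff
      have h2 : volume (Ioo (x0 - s) (x0 + s)) = ENNReal.ofReal (2 * s) := by
        rw [Real.volume_Ioo]
        congr 1
        ring
      rw [h2] at h1
      refine lt_of_lt_of_le ?_ h1
      rw [lt_tsub_iff_right, ← ENNReal.ofReal_add (by positivity) (by positivity)]
      refine lt_of_le_of_lt (le_of_eq ?_) hv
      congr 1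
      push_cast
      ring
    have key := ih g (m / 3) (2 * δ / s) E1 (by positivity) hgd hgm hE1b hvE1 w hw
    have hfw : f w = f c + (w - c) * g w := by
      have := sub_smul_dslope f c w
      rw [smul_eq_mul] at this
      rw [hg, this]
      ring
    have h5 : ‖w - c‖ ≤ 2 := (norm_sub_le _ _).trans (by linarith)
    have h6 : 0 ≤ (8 / s) ^ n := by positivity
    have h7 : 1 ≤ (8 / s) ^ n * (4 / s) := by
      have h8 : 1 ≤ 4 / s := by rw [le_div_iff₀ hs]; linarith
      have h9 : 1 ≤ (8 / s) ^ n := one_le_pow₀ (by rw [le_div_iff₀ hs]; linarith)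
      nlinarith
    calc ‖f w‖ ≤ ‖f c‖ + ‖w - c‖ * ‖g w‖ := by
          rw [hfw, ← norm_mul]
          exact norm_add_le _ _
      _ ≤ δ + 2 * ((2 / 3) ^ n * (m / 3) + (8 / s) ^ n * (2 * δ / s)) := by
          refine add_le_add hx2 (mul_le_mul h5 key (norm_nonneg _) (by norm_num))
      _ = (2 / 3) ^ (n + 1) * m + (8 / s) ^ n * (4 / s) * δ + 1 * δ := by
          rw [pow_succ]
          ring
      _ ≤ (2 / 3) ^ (n + 1) * m + (8 / s) ^ n * (4 / s) * δ + (8 / s) ^ n * (4 / s) * δ := by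
          have := mul_le_mul_of_nonneg_right h7 hδ
          linarith
      _ = _ := by
          rw [pow_succ (8 / s)]
          ring

lemma small_pow (k : ℕ) (hk : 1 ≤ k) {η : ℝ} (hη : 0 < η) :
    ∃ n : ℕ, 2 ^ (k - 1) * ((2 / 3 : ℝ) ^ n) ^ k ≤ η := by
  obtain ⟨n, hn⟩ := exists_pow_lt_of_lt_one (show 0 < η / 2 ^ (k - 1) by positivity)
    (show (2 / 3 : ℝ) < 1 by norm_num)
  refine ⟨n, ?_⟩
  have h1 : ((2 / 3 : ℝ) ^ n) ^ k ≤ (2 / 3 : ℝ) ^ n := by
    have h2 : (2 / 3 : ℝ) ^ n ≤ 1 := pow_le_one₀ (by norm_num) (by norm_num)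
    calc ((2 / 3 : ℝ) ^ n) ^ k ≤ ((2 / 3 : ℝ) ^ n) ^ 1 := pow_le_pow_of_le_one (by positivity) h2 hk
      _ = _ := pow_one _
  rw [lt_div_iff₀ (by positivity)] at hn
  have h3 : (0:ℝ) < 2 ^ (k - 1) := by positivity
  nlinarith

/-- the local Remez inequality -/
theorem rem_loc (k : ℕ) (hk : 1 ≤ k) {γ η : ℝ} (hγ : 0 < γ) (hγ1 : γ ≤ 1) (hη : 0 < η) :
    ∃ C : ℝ, 0 ≤ C ∧ ∀ (f : ℂ → ℂ) (t0 a m : ℝ) (E : Set ℝ), 0 < a → MeasurableSet E →
      DifferentiableOn ℂ f (Metric.ball ⟨1 / 2, t0⟩ (8 * a)) → (Continuous fun u : ℝ => f ⟨1 / 2, u⟩) →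
      (∀ z : ℂ, ‖z - ⟨1 / 2, t0⟩‖ ≤ 7 * a → ‖f z‖ ^ k ≤ m) →
      ENNReal.ofReal (γ * a) ≤ volume (E ∩ Icc t0 (t0 + a)) →
      ‖f ⟨1 / 2, t0⟩‖ ^ k ≤ η * m + C / a * ∫ u in E ∩ Icc t0 (t0 + a), ‖f ⟨1 / 2, u⟩‖ ^ k := by
  obtain ⟨n, hn⟩ := small_pow k hk hη
  set s : ℝ := γ / (8 * (n + 1)) with hs
  have hn0 : (0:ℝ) ≤ n := Nat.cast_nonneg n
  have hs0 : 0 < s := by positivity
  have hs1 : s ≤ 1 := by
    rw [hs, div_le_one (by positivity)]
    linarith
  refine ⟨2 ^ (k - 1) * ((8 / s) ^ n) ^ k * (2 / γ), by positivity, fun f t0 a m E ha hE hf hcont hm hvol => ?_⟩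
  set Et : Set ℝ := E ∩ Icc t0 (t0 + a) with hEt
  have hEtm : MeasurableSet Et := hE.inter measurableSet_Icc
  set Φ : ℝ → ℝ := fun u => ‖f ⟨1 / 2, u⟩‖ ^ k with hΦ
  have hΦc : Continuous Φ := hcont.norm.pow k
  have hΦ0 : ∀ u, 0 ≤ Φ u := fun u => by positivity
  have hint : IntegrableOn Φ Et := (hΦc.continuousOn.integrableOn_compact isCompact_Icc).mono_set inter_subset_right
  set V : ℝ := ∫ u in Et, Φ u with hV
  have hV0 : 0 ≤ V := integral_nonneg fun u => hΦ0 u
  have hm0 : 0 ≤ m := by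
    refine le_trans ?_ (hm ⟨1 / 2, t0⟩ (by rw [sub_self, norm_zero]; positivity))
    positivity
  have hga : 0 < γ * a := by positivity
  have hEtfin : volume Et ≠ ⊤ := ((measure_mono inter_subset_right).trans_lt (by
    rw [Real.volume_Icc]; exact ENNReal.ofReal_lt_top)).ne
  have main : ∀ τ : ℝ, 0 < τ → Φ t0 ≤ 2 ^ (k - 1) * (((2 / 3 : ℝ) ^ n) ^ k * m + ((8 / s) ^ n) ^ k * (2 * V / (γ * a) + τ)) := by
    intro τ hτ
    set lam : ℝ := 2 * V / (γ * a) + τ with hlam
    have hlam0 : 0 < lam := by positivity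
    -- the good set
    set G : Set ℝ := {u | Φ u < lam} with hG
    have hGm : MeasurableSet G := measurableSet_lt hΦc.measurable measurable_const
    have hbad : (volume.restrict Et).real {u | lam ≤ Φ u} < γ * a / 2 := by
      have h1 := mul_meas_ge_le_integral_of_nonneg (μ := volume.restrict Et) (f := Φ)
        (Eventually.of_forall hΦ0) hint lam
      have h2 : (volume.restrict Et).real {u | lam ≤ Φ u} ≤ V / lam := by
        rw [le_div_iff₀ hlam0, mul_comm]
        exact h1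
      refine h2.trans_lt ?_
      rw [div_lt_iff₀ hlam0]
      have h3 : γ * a / 2 * lam = V + γ * a / 2 * τ := by
        rw [hlam]
        field_simp
      rw [h3]
      have : 0 < γ * a / 2 * τ := by positivity
      linarith
    have hgood : ENNReal.ofReal (γ * a / 2) ≤ volume (Et ∩ G) := by
      have h1 : volume Et ≤ volume (Et ∩ G) + volume (Et \ G) := measure_le_inter_add_sdiff _ _ _
      have h2 : volume (Et \ G) ≤ ENNReal.ofReal (γ * a / 2) := by
        have h3 : (volume.restrict Et) {u | lam ≤ Φ u} = volume (Et \ G) := by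
          rw [Measure.restrict_apply (measurableSet_le measurable_const hΦc.measurable)]
          congr 1
          ext u
          simp only [hG, mem_inter_iff, mem_ofPred_eq, Set.mem_sdiff, not_lt]
          tauto
        have h4 : volume (Et \ G) ≠ ⊤ := (lt_of_le_of_lt (measure_mono sdiff_subset) hEtfin.lt_top).ne
        rw [← h3] at h4 ⊢
        rw [← ENNReal.ofReal_toReal h4]
        exact ENNReal.ofReal_le_ofReal hbad.le
      have h5 : ENNReal.ofReal (γ * a) = ENNReal.ofReal (γ * a / 2) + ENNReal.ofReal (γ * a / 2) := by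
        rw [← ENNReal.ofReal_add (by positivity) (by positivity)]
        congr 1
        ring
      have h6 : ENNReal.ofReal (γ * a / 2) + ENNReal.ofReal (γ * a / 2) ≤
          volume (Et ∩ G) + ENNReal.ofReal (γ * a / 2) := by
        rw [← h5]
        exact (hvol.trans h1).trans (by gcongr)
      exact (ENNReal.add_le_add_iff_right ENNReal.ofReal_ne_top).1 h6
    -- scaling
    set g : ℂ → ℂ := fun z => f (⟨1 / 2, t0⟩ + (a * z) * I) with hg
    have hgx : ∀ x : ℝ, g (x : ℂ) = f ⟨1 / 2, t0 + a * x⟩ := by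
      intro x
      have e : ((⟨1 / 2, t0⟩ : ℂ) + (a * (x : ℂ)) * I) = ⟨1 / 2, t0 + a * x⟩ := by
        apply Complex.ext <;> simp
      show f ((⟨1 / 2, t0⟩ : ℂ) + (a * (x : ℂ)) * I) = _
      rw [e]
    have hnorm : ∀ z : ℂ, ‖((⟨1 / 2, t0⟩ : ℂ) + (a * z) * I) - ⟨1 / 2, t0⟩‖ = a * ‖z‖ := by
      intro z
      rw [add_sub_cancel_left, norm_mul, norm_mul, Complex.norm_I, mul_one, Complex.norm_real,
        Real.norm_of_nonneg ha.le]
    have hgd : DifferentiableOn ℂ g (Metric.ball 0 8) := by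
      refine hf.comp (by fun_prop) fun z hz => ?_
      rw [mem_ball_zero_iff] at hz
      rw [mem_ball_iff_norm, hnorm]
      nlinarith
    set m1 : ℝ := m ^ ((k : ℝ)⁻¹) with hm1
    have hm10 : 0 ≤ m1 := Real.rpow_nonneg hm0 _
    have hm1k : m1 ^ k = m := Real.rpow_inv_natCast_pow hm0 (by omega)
    set d1 : ℝ := lam ^ ((k : ℝ)⁻¹) with hd1
    have hd10 : 0 ≤ d1 := Real.rpow_nonneg hlam0.le _
    have hd1k : d1 ^ k = lam := Real.rpow_inv_natCast_pow hlam0.le (by omega)
    have hgm : ∀ z : ℂ, ‖z‖ ≤ 7 → ‖g z‖ ≤ m1 := by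
      intro z hz
      have h1 := hm (⟨1 / 2, t0⟩ + (a * z) * I) (by rw [hnorm]; nlinarith)
      rw [← hm1k] at h1
      exact (pow_le_pow_iff_left₀ (norm_nonneg _) hm10 (by omega)).1 h1
    set E' : Set ℝ := (fun x : ℝ => a * x) ⁻¹' ((fun y : ℝ => t0 + y) ⁻¹' (Et ∩ G)) with hE'
    have hE'b : ∀ x ∈ E', |x| ≤ 1 ∧ ‖g (x : ℂ)‖ ≤ d1 := by
      intro x hx
      have hx' : t0 + a * x ∈ Et ∩ G := hx
      have h1 := hx'.1.2
      have h2 : 0 ≤ x := by
        by_contra h
        push Not at h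
        nlinarith [h1.1]
      have h3 : x ≤ 1 := by
        by_contra h
        push Not at h
        nlinarith [h1.2]
      refine ⟨by rw [abs_of_nonneg h2]; exact h3, ?_⟩
      rw [hgx]
      have h4 : ‖f ⟨1 / 2, t0 + a * x⟩‖ ^ k < lam := hx'.2
      rw [← hd1k] at h4
      exact (pow_le_pow_iff_left₀ (norm_nonneg _) hd10 (by omega)).1 h4.le
    have hvE' : ENNReal.ofReal (2 * n * s) < volume E' := by
      have h1 : volume E' = ENNReal.ofReal |a⁻¹| * volume (Et ∩ G) := by
        rw [hE', Real.volume_preimage_mul_left ha.ne', measure_preimage_add]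
      rw [h1, abs_of_pos (inv_pos.2 ha)]
      calc ENNReal.ofReal (2 * n * s) < ENNReal.ofReal (γ / 2) := by
            rw [ENNReal.ofReal_lt_ofReal_iff (by positivity), hs]
            rw [mul_div_assoc', div_lt_div_iff₀ (by positivity) (by norm_num)]
            nlinarith
        _ = ENNReal.ofReal a⁻¹ * ENNReal.ofReal (γ * a / 2) := by
            rw [← ENNReal.ofReal_mul (by positivity)]
            congr 1
            field_simp
        _ ≤ _ := by gcongr
    have key := rem_ind hs0 hs1 n g m1 d1 E' hd10 hgd hgm hE'b hvE' 0 (by rw [norm_zero]; norm_num)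
    have hg0 : g 0 = f ⟨1 / 2, t0⟩ := by
      rw [hg]
      simp
    rw [hg0] at key
    calc Φ t0 ≤ ((2 / 3) ^ n * m1 + (8 / s) ^ n * d1) ^ k := pow_le_pow_left₀ (norm_nonneg _) key _
      _ ≤ 2 ^ (k - 1) * (((2 / 3) ^ n * m1) ^ k + ((8 / s) ^ n * d1) ^ k) :=
          add_pow_le (by positivity) (by positivity) k
      _ = _ := by rw [mul_pow, mul_pow, hm1k, hd1k]
  -- the limit
  have hlim : Φ t0 ≤ 2 ^ (k - 1) * (((2 / 3 : ℝ) ^ n) ^ k * m + ((8 / s) ^ n) ^ k * (2 * V / (γ * a))) := by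
    refine le_of_forall_pos_le_add fun ε hε => ?_
    have hc : 0 < 2 ^ (k - 1) * ((8 / s) ^ n) ^ k := by positivity
    have h1 := main (ε / (2 ^ (k - 1) * ((8 / s) ^ n) ^ k)) (by positivity)
    refine h1.trans (le_of_eq ?_)
    field_simp
    ring
  refine hlim.trans ?_
  have h2 : 2 ^ (k - 1) * ((2 / 3 : ℝ) ^ n) ^ k * m ≤ η * m := mul_le_mul_of_nonneg_right hn hm0
  have h3 : 2 ^ (k - 1) * ((8 / s) ^ n) ^ k * (2 * V / (γ * a)) =
      2 ^ (k - 1) * ((8 / s) ^ n) ^ k * (2 / γ) / a * V := by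
    field_simp
  rw [mul_add, ← mul_assoc, ← mul_assoc, h3]
  linarith

end Pool.Agent.K4H72.TS
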