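import Mathlib
import Pool.Agent.K4H72.MZ.Mean
import Pool.Agent.K4H72.TS.Rem

/-!
Thick sets: absorption.
-/

set_option autoImplicit false

open MeasureTheory Filter Topology Set Complex
open scoped ENNReal

namespace Pool.Agent.K4H72.TS

open Pool.Agent.K4H72.MZ

/-- `E` contains a proportion at least `γ` of every interval of length `a`. -/
def Thick (E : Set ℝ) (a γ : ℝ) : Prop :=
  ∀ u : ℝ, ENNReal.ofReal (γ * a) ≤ volume (E ∩ Icc u (u + a))

lemma conv_pt {X Y Z : ℝ} (hX : 1 ≤ X) (hY : 1 ≤ Y) (hZ : 1 ≤ Z) (h : Z ≤ 4 * X ∨ Z ≤ 4 * Y) {M : ℕ}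
    (hM : 1 ≤ M) : 1 / (X ^ M * Y ^ M) ≤ 4 ^ M / Z ^ M * (X⁻¹ + Y⁻¹) := by
  have key : ∀ {X Y : ℝ}, 1 ≤ X → 1 ≤ Y → Z ≤ 4 * X → 1 / (X ^ M * Y ^ M) ≤ 4 ^ M / Z ^ M * Y⁻¹ := by
    intro X Y hX hY h
    have h1 : Z ^ M ≤ 4 ^ M * X ^ M := by
      rw [← mul_pow]
      exact pow_le_pow_left₀ (by linarith) h _
    have h2 : Y ≤ Y ^ M := le_self_pow₀ hY (by omega)
    have h3 : 0 < Z ^ M := by positivity
    have h4 : 0 < X ^ M := by positivity
    rw [← div_eq_mul_inv, div_div, div_le_div_iff₀ (by positivity) (by positivity), one_mul]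
    calc Z ^ M * Y ≤ (4 ^ M * X ^ M) * Y ^ M := mul_le_mul h1 h2 (by linarith) (by positivity)
      _ = _ := by ring
  have hX0 : 0 ≤ X⁻¹ := by positivity
  have hY0 : 0 ≤ Y⁻¹ := by positivity
  have h0 : 0 ≤ 4 ^ M / Z ^ M := by positivity
  rcases h with h | h
  · refine (key hX hY h).trans (mul_le_mul_of_nonneg_left (by linarith) h0)
  · have := key hY hX h
    rw [mul_comm (Y ^ M)] at this
    exact this.trans (mul_le_mul_of_nonneg_left (by linarith) h0)

lemma conv_w {M : ℕ} (hM : 1 ≤ M) {ℓ a : ℝ} (hℓ : 0 < ℓ) (ha : 0 ≤ a) (u : ℝ) :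
    ∫⁻ t, ENNReal.ofReal (ℓ * (a / ((1 + ((u - t) * ℓ) ^ 2) ^ M * (1 + (t * ℓ) ^ 2) ^ M))) ≤
      ENNReal.ofReal (4 ^ M * (2 * Real.pi) * (a / (1 + (u * ℓ) ^ 2) ^ M)) := by
  obtain ⟨h1, h2⟩ := kint hℓ u
  have h1' : Integrable (fun t : ℝ => (1 + (t * ℓ) ^ 2)⁻¹) ∧ ∫ t : ℝ, (1 + (t * ℓ) ^ 2)⁻¹ = Real.pi / ℓ := by
    obtain ⟨h3, h4⟩ := kint hℓ 0
    have e : (fun t : ℝ => (1 + ((0 - t) * ℓ) ^ 2)⁻¹) = fun t : ℝ => (1 + (t * ℓ) ^ 2)⁻¹ := by
      funext t
      rw [zero_sub, neg_mul, neg_sq]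
    rw [e] at h3 h4
    exact ⟨h3, h4⟩
  have hsum : Integrable (fun t : ℝ => (1 + ((u - t) * ℓ) ^ 2)⁻¹ + (1 + (t * ℓ) ^ 2)⁻¹) := h1.add h1'.1
  set Z : ℝ := 1 + (u * ℓ) ^ 2 with hZ
  have hZ1 : 1 ≤ Z := by rw [hZ]; linarith [sq_nonneg (u * ℓ)]
  calc ∫⁻ t, ENNReal.ofReal (ℓ * (a / ((1 + ((u - t) * ℓ) ^ 2) ^ M * (1 + (t * ℓ) ^ 2) ^ M)))
      ≤ ∫⁻ t, ENNReal.ofReal (ℓ * a * (4 ^ M / Z ^ M) * ((1 + ((u - t) * ℓ) ^ 2)⁻¹ + (1 + (t * ℓ) ^ 2)⁻¹)) := by
        refine lintegral_mono fun t => ENNReal.ofReal_le_ofReal ?_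
        have hX1 : 1 ≤ 1 + ((u - t) * ℓ) ^ 2 := by linarith [sq_nonneg ((u - t) * ℓ)]
        have hY1 : 1 ≤ 1 + (t * ℓ) ^ 2 := by linarith [sq_nonneg (t * ℓ)]
        have hcase : Z ≤ 4 * (1 + ((u - t) * ℓ) ^ 2) ∨ Z ≤ 4 * (1 + (t * ℓ) ^ 2) := by
          by_contra h
          push Not at h
          have e : u * ℓ = (u - t) * ℓ + t * ℓ := by ring
          have h5 : (u * ℓ) ^ 2 ≤ 2 * ((u - t) * ℓ) ^ 2 + 2 * (t * ℓ) ^ 2 := by
            rw [e]
            nlinarith [sq_nonneg ((u - t) * ℓ - t * ℓ)]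
          rw [hZ] at h
          linarith [h.1, h.2, sq_nonneg (u * ℓ)]
        have h3 := conv_pt hX1 hY1 hZ1 hcase hM
        have h4 : 0 ≤ ℓ * a := by positivity
        calc ℓ * (a / ((1 + ((u - t) * ℓ) ^ 2) ^ M * (1 + (t * ℓ) ^ 2) ^ M))
            = ℓ * a * (1 / ((1 + ((u - t) * ℓ) ^ 2) ^ M * (1 + (t * ℓ) ^ 2) ^ M)) := by ring
          _ ≤ ℓ * a * (4 ^ M / Z ^ M * ((1 + ((u - t) * ℓ) ^ 2)⁻¹ + (1 + (t * ℓ) ^ 2)⁻¹)) :=
              mul_le_mul_of_nonneg_left h3 h4
          _ = _ := by ring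
    _ = ENNReal.ofReal (∫ t, ℓ * a * (4 ^ M / Z ^ M) * ((1 + ((u - t) * ℓ) ^ 2)⁻¹ + (1 + (t * ℓ) ^ 2)⁻¹)) := by
        rw [ofReal_integral_eq_lintegral_ofReal (hsum.const_mul _)]
        exact Eventually.of_forall fun t => by positivity
    _ = _ := by
        rw [integral_const_mul, integral_add h1 h1'.1, h2, h1'.2]
        congr 1
        field_simp
        ring

theorem absorb (k : ℕ) (hk : 1 ≤ k) (M : ℕ) (hM : 1 ≤ M) {A γ C1 : ℝ} (hA : 0 < A) (hγ : 0 < γ)
    (hγ1 : γ ≤ 1) (hC1 : 0 ≤ C1) :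
    ∃ C : ℝ, 0 ≤ C ∧ ∀ (f : ℂ → ℂ) (ℓ H : ℝ) (E : Set ℝ), 1 ≤ ℓ → MeasurableSet E →
      Thick E (A / ℓ) γ → (Continuous fun u : ℝ => f ⟨1 / 2, u⟩) →
      (∀ t : ℝ, Integrable fun u : ℝ => ‖f ⟨1 / 2, u⟩‖ ^ k / (1 + ((u - t) * ℓ) ^ 2) ^ M) →
      (∀ t : ℝ, |t| ≤ H → DifferentiableOn ℂ f (Metric.ball ⟨1 / 2, t⟩ (8 * (A / ℓ)))) →
      (∀ t : ℝ, |t| ≤ H → ∀ z : ℂ, ‖z - ⟨1 / 2, t⟩‖ ≤ 7 * (A / ℓ) → ‖f z‖ ^ k ≤ C1 * (ℓ * JJ f k ℓ t M)) →
      JJ f k ℓ 0 M ≤ C * (∫ u in E, ‖f ⟨1 / 2, u⟩‖ ^ k / (1 + (u * ℓ) ^ 2) ^ M) +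
        2 * ∫ u in (Icc (-H) H)ᶜ, ‖f ⟨1 / 2, u⟩‖ ^ k / (1 + (u * ℓ) ^ 2) ^ M := by
  have hpi := Real.pi_pos
  set C2 : ℝ := 4 ^ M * (2 * Real.pi) with hC2
  have hC20 : 0 < C2 := by positivity
  set η : ℝ := 1 / (2 * (C1 * C2 + 1)) with hη
  have hη0 : 0 < η := by positivity
  obtain ⟨CR, hCR, hR⟩ := rem_loc k hk hγ hγ1 hη0
  set C3 : ℝ := (2 + 2 * A ^ 2) ^ M with hC3
  have hC30 : 0 ≤ C3 := by positivity
  refine ⟨2 * (CR * C3), by positivity, fun f ℓ H E hℓ hE hth hcont hint hdiff hpt => ?_⟩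
  have hℓ0 : 0 < ℓ := by linarith
  set a : ℝ := A / ℓ with ha
  have ha0 : 0 < a := by positivity
  set Φ : ℝ → ℝ := fun u => ‖f ⟨1 / 2, u⟩‖ ^ k with hΦ
  have hΦc : Continuous Φ := hcont.norm.pow k
  have hΦ0 : ∀ u, 0 ≤ Φ u := fun u => by positivity
  set W : ℝ → ℝ := fun u => (1 + (u * ℓ) ^ 2) ^ M with hW
  have hW0 : ∀ u, 0 < W u := fun u => by positivity
  have hWc : Continuous W := by rw [hW]; fun_prop
  have hint0 : Integrable fun u => Φ u / W u := by
    refine (hint 0).congr (Eventually.of_forall fun u => ?_)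
    show ‖f ⟨1 / 2, u⟩‖ ^ k / (1 + ((u - 0) * ℓ) ^ 2) ^ M = _
    rw [sub_zero]
  set J0 : ℝ := ∫ u, Φ u / W u with hJ0
  have hJJ0 : JJ f k ℓ 0 M = J0 := by
    unfold JJ
    rw [hJ0, hΦ, hW]
    simp
  have hJ00 : 0 ≤ J0 := integral_nonneg fun u => div_nonneg (hΦ0 u) (hW0 u).le
  set IE : ℝ := ∫ u in E, Φ u / W u with hIE
  set tail : ℝ := ∫ u in (Icc (-H) H)ᶜ, Φ u / W u with htail
  -- pointwise
  have hP : ∀ t ∈ Icc (-H) H, ENNReal.ofReal (Φ t / W t) ≤
      ENNReal.ofReal (η * C1 * (ℓ * (JJ f k ℓ t M / W t))) +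
      ∫⁻ u in E, (Icc t (t + a)).indicator (fun _ => ENNReal.ofReal (CR / a * (Φ u / W t))) u := by
    intro t ht
    have ht' : |t| ≤ H := abs_le.2 ⟨ht.1, ht.2⟩
    have h1 : Φ t ≤ η * (C1 * (ℓ * JJ f k ℓ t M)) + CR / a * ∫ u in E ∩ Icc t (t + a), Φ u :=
      hR f t a (C1 * (ℓ * JJ f k ℓ t M)) E ha0 hE (hdiff t ht') hcont (hpt t ht') (hth t)
    have hJt : 0 ≤ JJ f k ℓ t M := integral_nonneg fun u => by positivity
    have hIt : IntegrableOn Φ (E ∩ Icc t (t + a)) :=
      (hΦc.continuousOn.integrableOn_compact isCompact_Icc).mono_set inter_subset_right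
    have hIt0 : 0 ≤ ∫ u in E ∩ Icc t (t + a), Φ u := integral_nonneg fun u => hΦ0 u
    have h2 : Φ t / W t ≤ η * C1 * (ℓ * (JJ f k ℓ t M / W t)) +
        ∫ u in E ∩ Icc t (t + a), CR / a * (Φ u / W t) := by
      have e : ∫ u in E ∩ Icc t (t + a), CR / a * (Φ u / W t) = CR / a * ((∫ u in E ∩ Icc t (t + a), Φ u) / W t) := by
        rw [integral_const_mul, integral_div]
      rw [e, div_le_iff₀ (hW0 t)]
      have hWt := (hW0 t).ne'
      calc Φ t ≤ _ := h1
        _ = _ := by
          field_simp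
    refine (ENNReal.ofReal_le_ofReal h2).trans ?_
    rw [ENNReal.ofReal_add (by have := (hW0 t).le; positivity) (integral_nonneg fun u => by
      have := hΦ0 u
      have := (hW0 t).le
      show (0:ℝ) ≤ _
      positivity)]
    refine add_le_add le_rfl (le_of_eq ?_)
    rw [ofReal_integral_eq_lintegral_ofReal]
    · rw [← lintegral_indicator hE, ← lintegral_indicator (hE.inter measurableSet_Icc)]
      refine lintegral_congr fun u => ?_
      by_cases h3 : u ∈ E
      · by_cases h4 : u ∈ Icc t (t + a)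
        · rw [indicator_of_mem (mem_inter h3 h4), indicator_of_mem h3, indicator_of_mem h4]
        · rw [indicator_of_notMem (fun h => h4 h.2), indicator_of_mem h3, indicator_of_notMem h4]
      · rw [indicator_of_notMem (fun h => h3 h.1), indicator_of_notMem h3]
    · exact (hIt.div_const _).const_mul _
    · exact Eventually.of_forall fun u => by
        have := hΦ0 u
        have := (hW0 t).le
        show (0:ℝ) ≤ _
        positivity
  -- the first term
  have hT1 : ∫⁻ t in Icc (-H) H, ENNReal.ofReal (η * C1 * (ℓ * (JJ f k ℓ t M / W t))) ≤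
      ENNReal.ofReal (η * C1 * (C2 * J0)) := by
    have e1 : ∀ t, ENNReal.ofReal (η * C1 * (ℓ * (JJ f k ℓ t M / W t))) =
        ENNReal.ofReal (η * C1) * ∫⁻ u, ENNReal.ofReal (ℓ * (Φ u / ((1 + ((u - t) * ℓ) ^ 2) ^ M * (1 + (t * ℓ) ^ 2) ^ M))) := by
      intro t
      rw [ENNReal.ofReal_mul (by positivity)]
      congr 1
      unfold JJ
      rw [← ofReal_integral_eq_lintegral_ofReal]
      · rw [integral_const_mul, ← integral_div]
        congr 3
        funext u
        rw [div_div]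
      · have := ((hint t).div_const (W t)).const_mul ℓ
        refine this.congr (Eventually.of_forall fun u => ?_)
        show ℓ * (Φ u / (1 + ((u - t) * ℓ) ^ 2) ^ M / W t) = _
        rw [div_div]
      · exact Eventually.of_forall fun u => by
          have := hΦ0 u
          show (0:ℝ) ≤ _
          positivity
    have hmeas : Measurable (Function.uncurry fun t u : ℝ =>
        ENNReal.ofReal (ℓ * (Φ u / ((1 + ((u - t) * ℓ) ^ 2) ^ M * (1 + (t * ℓ) ^ 2) ^ M)))) := by
      apply Measurable.ennreal_ofReal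
      apply Continuous.measurable
      refine continuous_const.mul ((hΦc.comp continuous_snd).div (by fun_prop) fun p => ?_)
      positivity
    calc ∫⁻ t in Icc (-H) H, ENNReal.ofReal (η * C1 * (ℓ * (JJ f k ℓ t M / W t)))
        ≤ ∫⁻ t, ENNReal.ofReal (η * C1 * (ℓ * (JJ f k ℓ t M / W t))) := setLIntegral_le_lintegral _ _
      _ = ENNReal.ofReal (η * C1) * ∫⁻ t, ∫⁻ u, ENNReal.ofReal (ℓ * (Φ u / ((1 + ((u - t) * ℓ) ^ 2) ^ M * (1 + (t * ℓ) ^ 2) ^ M))) := by
          rw [lintegral_congr e1, lintegral_const_mul' _ _ ENNReal.ofReal_ne_top]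
      _ = ENNReal.ofReal (η * C1) * ∫⁻ u, ∫⁻ t, ENNReal.ofReal (ℓ * (Φ u / ((1 + ((u - t) * ℓ) ^ 2) ^ M * (1 + (t * ℓ) ^ 2) ^ M))) := by
          rw [lintegral_lintegral_swap hmeas.aemeasurable]
      _ ≤ ENNReal.ofReal (η * C1) * ∫⁻ u, ENNReal.ofReal (C2 * (Φ u / W u)) := by
          gcongr with u
          exact conv_w hM hℓ0 (hΦ0 u) u
      _ = ENNReal.ofReal (η * C1) * ENNReal.ofReal (C2 * J0) := by
          rw [← ofReal_integral_eq_lintegral_ofReal (hint0.const_mul _), integral_const_mul]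
          exact Eventually.of_forall fun u => by
            have := hΦ0 u
            have := (hW0 u).le
            show (0:ℝ) ≤ _
            positivity
      _ = _ := by rw [← ENNReal.ofReal_mul (by positivity)]
  -- the second term
  have hT2 : ∫⁻ t in Icc (-H) H, ∫⁻ u in E, (Icc t (t + a)).indicator (fun _ => ENNReal.ofReal (CR / a * (Φ u / W t))) u ≤
      ENNReal.ofReal (CR * C3 * IE) := by
    have hmeas : Measurable (Function.uncurry fun t u : ℝ =>
        (Icc t (t + a)).indicator (fun _ => ENNReal.ofReal (CR / a * (Φ u / W t))) u) := by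
      have e : (Function.uncurry fun t u : ℝ =>
        (Icc t (t + a)).indicator (fun _ => ENNReal.ofReal (CR / a * (Φ u / W t))) u) =
        {p : ℝ × ℝ | p.1 ≤ p.2 ∧ p.2 ≤ p.1 + a}.indicator (fun p => ENNReal.ofReal (CR / a * (Φ p.2 / W p.1))) := by
        funext p
        by_cases h : p.2 ∈ Icc p.1 (p.1 + a)
        · have h' : p ∈ {p : ℝ × ℝ | p.1 ≤ p.2 ∧ p.2 ≤ p.1 + a} := h
          show (Icc p.1 (p.1 + a)).indicator (fun _ => ENNReal.ofReal (CR / a * (Φ p.2 / W p.1))) p.2 = _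
          rw [indicator_of_mem h, indicator_of_mem h']
        · have h' : p ∉ {p : ℝ × ℝ | p.1 ≤ p.2 ∧ p.2 ≤ p.1 + a} := h
          show (Icc p.1 (p.1 + a)).indicator (fun _ => ENNReal.ofReal (CR / a * (Φ p.2 / W p.1))) p.2 = _
          rw [indicator_of_notMem h, indicator_of_notMem h']
      rw [e]
      refine Measurable.indicator ?_ ?_
      · apply Measurable.ennreal_ofReal
        apply Continuous.measurable
        refine continuous_const.mul ((hΦc.comp continuous_snd).div (hWc.comp continuous_fst) fun p => ?_)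
        exact (hW0 _).ne'
      · exact (measurableSet_le measurable_fst measurable_snd).inter
          (measurableSet_le measurable_snd (measurable_fst.add_const a))
    calc ∫⁻ t in Icc (-H) H, ∫⁻ u in E, (Icc t (t + a)).indicator (fun _ => ENNReal.ofReal (CR / a * (Φ u / W t))) u
        ≤ ∫⁻ t, ∫⁻ u in E, (Icc t (t + a)).indicator (fun _ => ENNReal.ofReal (CR / a * (Φ u / W t))) u :=
          setLIntegral_le_lintegral _ _
      _ = ∫⁻ u in E, ∫⁻ t, (Icc t (t + a)).indicator (fun _ => ENNReal.ofReal (CR / a * (Φ u / W t))) u :=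
          lintegral_lintegral_swap hmeas.aemeasurable
      _ ≤ ∫⁻ u in E, ENNReal.ofReal (CR * C3 * (Φ u / W u)) := by
          refine lintegral_mono fun u => ?_
          calc ∫⁻ t, (Icc t (t + a)).indicator (fun _ => ENNReal.ofReal (CR / a * (Φ u / W t))) u
              ≤ ∫⁻ t, (Icc (u - a) u).indicator (fun _ => ENNReal.ofReal (CR / a * (C3 * (Φ u / W u)))) t := by
                refine lintegral_mono fun t => ?_
                by_cases h : u ∈ Icc t (t + a)
                · have h' : t ∈ Icc (u - a) u := ⟨by linarith [h.2], h.1⟩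
                  rw [indicator_of_mem h, indicator_of_mem h']
                  refine ENNReal.ofReal_le_ofReal (mul_le_mul_of_nonneg_left ?_ (by positivity))
                  have h5 : W u ≤ C3 * W t := by
                    rw [hC3, hW]
                    simp only
                    rw [← mul_pow]
                    refine pow_le_pow_left₀ (by positivity) ?_ _
                    have h6 : |(u - t) * ℓ| ≤ A := by
                      rw [abs_mul, abs_of_pos hℓ0, abs_of_nonneg (by linarith [h.1])]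
                      have h7 : u - t ≤ a := by linarith [h.2]
                      calc (u - t) * ℓ ≤ a * ℓ := mul_le_mul_of_nonneg_right h7 hℓ0.le
                        _ = A := by rw [ha]; field_simp
                    have h8 : ((u - t) * ℓ) ^ 2 ≤ A ^ 2 := by
                      rw [← sq_abs]
                      exact pow_le_pow_left₀ (abs_nonneg _) h6 _
                    have e : u * ℓ = (u - t) * ℓ + t * ℓ := by ring
                    rw [e]
                    nlinarith [sq_nonneg ((u - t) * ℓ - t * ℓ), mul_nonneg (sq_nonneg A) (sq_nonneg (t * ℓ))]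
                  rw [mul_div_assoc', div_le_div_iff₀ (hW0 t) (hW0 u)]
                  have := mul_le_mul_of_nonneg_left h5 (hΦ0 u)
                  linarith
                · rw [indicator_of_notMem h]
                  exact bot_le
            _ = ENNReal.ofReal (CR * C3 * (Φ u / W u)) := by
                rw [lintegral_indicator measurableSet_Icc, setLIntegral_const, Real.volume_Icc,
                  ← ENNReal.ofReal_mul (by
                    have := hΦ0 u
                    have := (hW0 u).le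
                    positivity)]
                congr 1
                have := (hW0 u).ne'
                field_simp
                ring
      _ = ENNReal.ofReal (CR * C3 * IE) := by
          rw [← ofReal_integral_eq_lintegral_ofReal (hint0.integrableOn.const_mul _), integral_const_mul]
          exact Eventually.of_forall fun u => by
            have := hΦ0 u
            have := (hW0 u).le
            show (0:ℝ) ≤ _
            positivity
  have hIE0 : 0 ≤ IE := integral_nonneg fun u => div_nonneg (hΦ0 u) (hW0 u).le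
  have hmain : ∫ u in Icc (-H) H, Φ u / W u ≤ η * C1 * (C2 * J0) + CR * C3 * IE := by
    have h1 : ENNReal.ofReal (∫ u in Icc (-H) H, Φ u / W u) ≤
        ENNReal.ofReal (η * C1 * (C2 * J0) + CR * C3 * IE) := by
      rw [ofReal_integral_eq_lintegral_ofReal hint0.integrableOn (Eventually.of_forall fun u =>
        div_nonneg (hΦ0 u) (hW0 u).le), ENNReal.ofReal_add (by positivity) (by positivity)]
      refine (setLIntegral_mono' measurableSet_Icc hP).trans ?_
      rw [lintegral_add_left']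
      · exact add_le_add hT1 hT2
      · -- measurability of the first term
        have e1 : (fun t => ENNReal.ofReal (η * C1 * (ℓ * (JJ f k ℓ t M / W t)))) = fun t =>
            ENNReal.ofReal (η * C1) * (ENNReal.ofReal (ℓ / W t) *
              ∫⁻ u, ENNReal.ofReal (Φ u / (1 + ((u - t) * ℓ) ^ 2) ^ M)) := by
          funext t
          unfold JJ
          rw [← ofReal_integral_eq_lintegral_ofReal (hint t) (Eventually.of_forall fun u => by positivity),
            ← ENNReal.ofReal_mul (by have := (hW0 t).le; positivity), ← ENNReal.ofReal_mul (by positivity)]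
          congr 1
          ring
        rw [e1]
        have hm2 : Measurable (Function.uncurry fun t u : ℝ =>
            ENNReal.ofReal (Φ u / (1 + ((u - t) * ℓ) ^ 2) ^ M)) := by
          apply Measurable.ennreal_ofReal
          apply Continuous.measurable
          refine (hΦc.comp continuous_snd).div (by fun_prop) fun p => ?_
          positivity
        have hm3 : Measurable fun t : ℝ => ENNReal.ofReal (ℓ / W t) :=
          Measurable.ennreal_ofReal (Continuous.measurable (continuous_const.div hWc fun t => (hW0 t).ne'))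
        exact (measurable_const.mul (hm3.mul hm2.lintegral_prod_right')).aemeasurable
    exact (ENNReal.ofReal_le_ofReal_iff (by positivity)).1 h1
  have hsplit : J0 = (∫ u in Icc (-H) H, Φ u / W u) + tail := by
    rw [hJ0, htail, integral_add_compl measurableSet_Icc hint0]
  have hη1 : η * C1 * (C2 * J0) ≤ 1 / 2 * J0 := by
    have h3 : η * C1 * C2 ≤ 1 / 2 := by
      rw [hη, div_mul_eq_mul_div, div_mul_eq_mul_div, div_le_div_iff₀ (by positivity) (by norm_num)]
      nlinarith [mul_nonneg hC1 hC20.le]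
    calc η * C1 * (C2 * J0) = η * C1 * C2 * J0 := by ring
      _ ≤ _ := mul_le_mul_of_nonneg_right h3 hJ00
  rw [hJJ0]
  show J0 ≤ 2 * (CR * C3) * IE + 2 * tail
  linarith

end Pool.Agent.K4H72.TS
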