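import Mathlib
import Pool.Agent.K4H72.TS.Abs

/-!
Thick sets: absorption with a general weight.
-/

set_option autoImplicit false

open MeasureTheory Filter Topology Set Complex
open scoped ENNReal

namespace Pool.Agent.K4H72.TS

open Pool.Agent.K4H72.MZ

lemma conv_w2 {M : ℕ} {ℓ K a Wu : ℝ} {W : ℝ → ℝ} (hℓ : 0 < ℓ) (ha : 0 ≤ a) (hWu : 0 < Wu) (hK : 0 ≤ K)
    (hW0 : ∀ t, 0 < W t) (u : ℝ) (hW : ∀ t, Wu ≤ K * W t * (1 + ((u - t) * ℓ) ^ 2) ^ M) :
    ∫⁻ t, ENNReal.ofReal (ℓ * (a / ((1 + ((u - t) * ℓ) ^ 2) ^ (M + 1) * W t))) ≤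
      ENNReal.ofReal (K * Real.pi * (a / Wu)) := by
  obtain ⟨h1, h2⟩ := kint hℓ u
  calc ∫⁻ t, ENNReal.ofReal (ℓ * (a / ((1 + ((u - t) * ℓ) ^ 2) ^ (M + 1) * W t)))
      ≤ ∫⁻ t, ENNReal.ofReal (ℓ * a * (K / Wu) * (1 + ((u - t) * ℓ) ^ 2)⁻¹) := by
        refine lintegral_mono fun t => ENNReal.ofReal_le_ofReal ?_
        set X : ℝ := 1 + ((u - t) * ℓ) ^ 2 with hX
        have hX0 : 0 < X := by positivity
        have h3 := hW0 t
        have h4 : 1 / (X ^ (M + 1) * W t) ≤ K / Wu * X⁻¹ := by
          rw [← div_eq_mul_inv, div_div, div_le_div_iff₀ (by positivity) (by positivity), one_mul, pow_succ]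
          calc Wu * X ≤ K * W t * X ^ M * X := mul_le_mul_of_nonneg_right (hW t) hX0.le
            _ = _ := by ring
        calc ℓ * (a / (X ^ (M + 1) * W t)) = ℓ * a * (1 / (X ^ (M + 1) * W t)) := by ring
          _ ≤ ℓ * a * (K / Wu * X⁻¹) := mul_le_mul_of_nonneg_left h4 (by positivity)
          _ = _ := by ring
    _ = ENNReal.ofReal (∫ t, ℓ * a * (K / Wu) * (1 + ((u - t) * ℓ) ^ 2)⁻¹) := by
        rw [ofReal_integral_eq_lintegral_ofReal (h1.const_mul _)]
        exact Eventually.of_forall fun t => by positivity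
    _ = _ := by
        rw [integral_const_mul, h2]
        congr 1
        field_simp

theorem absorb2 (k : ℕ) (hk : 1 ≤ k) (M : ℕ) {A γ C1 K : ℝ} (hA : 0 < A) (hγ : 0 < γ)
    (hγ1 : γ ≤ 1) (hC1 : 0 ≤ C1) (hK : 0 ≤ K) :
    ∃ C : ℝ, 0 ≤ C ∧ ∀ (f : ℂ → ℂ) (ℓ : ℝ) (W : ℝ → ℝ) (Gd E : Set ℝ), 1 ≤ ℓ → MeasurableSet Gd →
      MeasurableSet E →
      Thick E (A / ℓ) γ → (Continuous fun u : ℝ => f ⟨1 / 2, u⟩) → Continuous W → (∀ u, 0 < W u) →
      (∀ u t, W u ≤ K * W t * (1 + ((u - t) * ℓ) ^ 2) ^ M) →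
      (Integrable fun u : ℝ => ‖f ⟨1 / 2, u⟩‖ ^ k / W u) →
      (∀ t : ℝ, Integrable fun u : ℝ => ‖f ⟨1 / 2, u⟩‖ ^ k / (1 + ((u - t) * ℓ) ^ 2) ^ (M + 1)) →
      (∀ t ∈ Gd, DifferentiableOn ℂ f (Metric.ball ⟨1 / 2, t⟩ (8 * (A / ℓ)))) →
      (∀ t ∈ Gd, ∀ z : ℂ, ‖z - ⟨1 / 2, t⟩‖ ≤ 7 * (A / ℓ) → ‖f z‖ ^ k ≤ C1 * (ℓ * JJ f k ℓ t (M + 1))) →
      (∫ u, ‖f ⟨1 / 2, u⟩‖ ^ k / W u) ≤ C * (∫ u in E, ‖f ⟨1 / 2, u⟩‖ ^ k / W u) +
        2 * ∫ u in Gdᶜ, ‖f ⟨1 / 2, u⟩‖ ^ k / W u := by
  have hpi := Real.pi_pos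
  set C2 : ℝ := K * Real.pi with hC2
  have hC20 : 0 ≤ C2 := by positivity
  set η : ℝ := 1 / (2 * (C1 * C2 + 1)) with hη
  have hη0 : 0 < η := by positivity
  obtain ⟨CR, hCR, hR⟩ := rem_loc k hk hγ hγ1 hη0
  set C3 : ℝ := K * (1 + A ^ 2) ^ M with hC3
  have hC30 : 0 ≤ C3 := by positivity
  refine ⟨2 * (CR * C3), by positivity, fun f ℓ W Gd E hℓ hGd hE hth hcont hWc hW0 hWW hint0 hint hdiff hpt => ?_⟩
  have hℓ0 : 0 < ℓ := by linarith
  set a : ℝ := A / ℓ with ha
  have ha0 : 0 < a := by positivity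
  set Φ : ℝ → ℝ := fun u => ‖f ⟨1 / 2, u⟩‖ ^ k with hΦ
  have hΦc : Continuous Φ := hcont.norm.pow k
  have hΦ0 : ∀ u, 0 ≤ Φ u := fun u => by positivity
  set J0 : ℝ := ∫ u, Φ u / W u with hJ0
  have hJ00 : 0 ≤ J0 := integral_nonneg fun u => div_nonneg (hΦ0 u) (hW0 u).le
  set IE : ℝ := ∫ u in E, Φ u / W u with hIE
  set tail : ℝ := ∫ u in Gdᶜ, Φ u / W u with htail
  -- pointwise
  have hP : ∀ t ∈ Gd, ENNReal.ofReal (Φ t / W t) ≤
      ENNReal.ofReal (η * C1 * (ℓ * (JJ f k ℓ t (M + 1) / W t))) +
      ∫⁻ u in E, (Icc t (t + a)).indicator (fun _ => ENNReal.ofReal (CR / a * (Φ u / W t))) u := by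
    intro t ht
    have h1 : Φ t ≤ η * (C1 * (ℓ * JJ f k ℓ t (M + 1))) + CR / a * ∫ u in E ∩ Icc t (t + a), Φ u :=
      hR f t a (C1 * (ℓ * JJ f k ℓ t (M + 1))) E ha0 hE (hdiff t ht) hcont (hpt t ht) (hth t)
    have hJt : 0 ≤ JJ f k ℓ t (M + 1) := integral_nonneg fun u => by positivity
    have hIt : IntegrableOn Φ (E ∩ Icc t (t + a)) :=
      (hΦc.continuousOn.integrableOn_compact isCompact_Icc).mono_set inter_subset_right
    have h2 : Φ t / W t ≤ η * C1 * (ℓ * (JJ f k ℓ t (M + 1) / W t)) +
        ∫ u in E ∩ Icc t (t + a), CR / a * (Φ u / W t) := by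
      have e : ∫ u in E ∩ Icc t (t + a), CR / a * (Φ u / W t) = CR / a * ((∫ u in E ∩ Icc t (t + a), Φ u) / W t) := by
        rw [integral_const_mul, integral_div]
      rw [e, div_le_iff₀ (hW0 t)]
      have hWt := (hW0 t).ne'
      calc Φ t ≤ _ := h1
        _ = _ := by
          field_simp
    refine (ENNReal.ofReal_le_ofReal h2).trans ?_
    rw [ENNReal.ofReal_add (by have := (hW0 t).le; positivity) (integral_nonneg fun u => by
      have := hΦ0 u
      have := (hW0 t).le
      show (0:ℝ) ≤ _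
      positivity)]
    refine add_le_add le_rfl (le_of_eq ?_)
    rw [ofReal_integral_eq_lintegral_ofReal]
    · rw [← lintegral_indicator hE, ← lintegral_indicator (hE.inter measurableSet_Icc)]
      refine lintegral_congr fun u => ?_
      by_cases h3 : u ∈ E
      · by_cases h4 : u ∈ Icc t (t + a)
        · rw [indicator_of_mem (mem_inter h3 h4), indicator_of_mem h3, indicator_of_mem h4]
        · rw [indicator_of_notMem (fun h => h4 h.2), indicator_of_mem h3, indicator_of_notMem h4]
      · rw [indicator_of_notMem (fun h => h3 h.1), indicator_of_notMem h3]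
    · exact (hIt.div_const _).const_mul _
    · exact Eventually.of_forall fun u => by
        have := hΦ0 u
        have := (hW0 t).le
        show (0:ℝ) ≤ _
        positivity
  -- the first term
  have hT1 : ∫⁻ t in Gd, ENNReal.ofReal (η * C1 * (ℓ * (JJ f k ℓ t (M + 1) / W t))) ≤
      ENNReal.ofReal (η * C1 * (C2 * J0)) := by
    have e1 : ∀ t, ENNReal.ofReal (η * C1 * (ℓ * (JJ f k ℓ t (M + 1) / W t))) =
        ENNReal.ofReal (η * C1) * ∫⁻ u, ENNReal.ofReal (ℓ * (Φ u / ((1 + ((u - t) * ℓ) ^ 2) ^ (M + 1) * W t))) := by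
      intro t
      rw [ENNReal.ofReal_mul (by positivity)]
      congr 1
      unfold JJ
      rw [← ofReal_integral_eq_lintegral_ofReal]
      · rw [integral_const_mul, ← integral_div]
        congr 3
        funext u
        rw [div_div]
      · have := ((hint t).div_const (W t)).const_mul ℓ
        refine this.congr (Eventually.of_forall fun u => ?_)
        show ℓ * (Φ u / (1 + ((u - t) * ℓ) ^ 2) ^ (M + 1) / W t) = _
        rw [div_div]
      · exact Eventually.of_forall fun u => by
          have := hΦ0 u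
          have := (hW0 t).le
          show (0:ℝ) ≤ _
          positivity
    have hmeas : Measurable (Function.uncurry fun t u : ℝ =>
        ENNReal.ofReal (ℓ * (Φ u / ((1 + ((u - t) * ℓ) ^ 2) ^ (M + 1) * W t)))) := by
      apply Measurable.ennreal_ofReal
      apply Continuous.measurable
      refine continuous_const.mul ((hΦc.comp continuous_snd).div
        (Continuous.mul (by fun_prop) (hWc.comp continuous_fst)) fun p => ?_)
      have := hW0 p.1
      positivity
    calc ∫⁻ t in Gd, ENNReal.ofReal (η * C1 * (ℓ * (JJ f k ℓ t (M + 1) / W t)))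
        ≤ ∫⁻ t, ENNReal.ofReal (η * C1 * (ℓ * (JJ f k ℓ t (M + 1) / W t))) := setLIntegral_le_lintegral _ _
      _ = ENNReal.ofReal (η * C1) * ∫⁻ t, ∫⁻ u, ENNReal.ofReal (ℓ * (Φ u / ((1 + ((u - t) * ℓ) ^ 2) ^ (M + 1) * W t))) := by
          rw [lintegral_congr e1, lintegral_const_mul' _ _ ENNReal.ofReal_ne_top]
      _ = ENNReal.ofReal (η * C1) * ∫⁻ u, ∫⁻ t, ENNReal.ofReal (ℓ * (Φ u / ((1 + ((u - t) * ℓ) ^ 2) ^ (M + 1) * W t))) := by
          rw [lintegral_lintegral_swap hmeas.aemeasurable]
      _ ≤ ENNReal.ofReal (η * C1) * ∫⁻ u, ENNReal.ofReal (C2 * (Φ u / W u)) := by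
          gcongr with u
          exact conv_w2 hℓ0 (hΦ0 u) (hW0 u) hK hW0 u (fun t => hWW u t)
      _ = ENNReal.ofReal (η * C1) * ENNReal.ofReal (C2 * J0) := by
          rw [← ofReal_integral_eq_lintegral_ofReal (hint0.const_mul _), integral_const_mul]
          exact Eventually.of_forall fun u => by
            have := hΦ0 u
            have := (hW0 u).le
            show (0:ℝ) ≤ _
            positivity
      _ = _ := by rw [← ENNReal.ofReal_mul (by positivity)]
  -- the second term
  have hT2 : ∫⁻ t in Gd, ∫⁻ u in E, (Icc t (t + a)).indicator (fun _ => ENNReal.ofReal (CR / a * (Φ u / W t))) u ≤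
      ENNReal.ofReal (CR * C3 * IE) := by
    have hmeas : Measurable (Function.uncurry fun t u : ℝ =>
        (Icc t (t + a)).indicator (fun _ => ENNReal.ofReal (CR / a * (Φ u / W t))) u) := by
      have e : (Function.uncurry fun t u : ℝ =>
        (Icc t (t + a)).indicator (fun _ => ENNReal.ofReal (CR / a * (Φ u / W t))) u) =
        {p : ℝ × ℝ | p.1 ≤ p.2 ∧ p.2 ≤ p.1 + a}.indicator (fun p => ENNReal.ofReal (CR / a * (Φ p.2 / W p.1))) := by
        funext p
        by_cases h : p.2 ∈ Icc p.1 (p.1 + a)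
        · have h' : p ∈ {p : ℝ × ℝ | p.1 ≤ p.2 ∧ p.2 ≤ p.1 + a} := h
          show (Icc p.1 (p.1 + a)).indicator (fun _ => ENNReal.ofReal (CR / a * (Φ p.2 / W p.1))) p.2 = _
          rw [indicator_of_mem h, indicator_of_mem h']
        · have h' : p ∉ {p : ℝ × ℝ | p.1 ≤ p.2 ∧ p.2 ≤ p.1 + a} := h
          show (Icc p.1 (p.1 + a)).indicator (fun _ => ENNReal.ofReal (CR / a * (Φ p.2 / W p.1))) p.2 = _
          rw [indicator_of_notMem h, indicator_of_notMem h']
      rw [e]
      refine Measurable.indicator ?_ ?_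
      · apply Measurable.ennreal_ofReal
        apply Continuous.measurable
        refine continuous_const.mul ((hΦc.comp continuous_snd).div (hWc.comp continuous_fst) fun p => ?_)
        exact (hW0 _).ne'
      · exact (measurableSet_le measurable_fst measurable_snd).inter
          (measurableSet_le measurable_snd (measurable_fst.add_const a))
    calc ∫⁻ t in Gd, ∫⁻ u in E, (Icc t (t + a)).indicator (fun _ => ENNReal.ofReal (CR / a * (Φ u / W t))) u
        ≤ ∫⁻ t, ∫⁻ u in E, (Icc t (t + a)).indicator (fun _ => ENNReal.ofReal (CR / a * (Φ u / W t))) u :=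
          setLIntegral_le_lintegral _ _
      _ = ∫⁻ u in E, ∫⁻ t, (Icc t (t + a)).indicator (fun _ => ENNReal.ofReal (CR / a * (Φ u / W t))) u :=
          lintegral_lintegral_swap hmeas.aemeasurable
      _ ≤ ∫⁻ u in E, ENNReal.ofReal (CR * C3 * (Φ u / W u)) := by
          refine lintegral_mono fun u => ?_
          calc ∫⁻ t, (Icc t (t + a)).indicator (fun _ => ENNReal.ofReal (CR / a * (Φ u / W t))) u
              ≤ ∫⁻ t, (Icc (u - a) u).indicator (fun _ => ENNReal.ofReal (CR / a * (C3 * (Φ u / W u)))) t := by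
                refine lintegral_mono fun t => ?_
                by_cases h : u ∈ Icc t (t + a)
                · have h' : t ∈ Icc (u - a) u := ⟨by linarith [h.2], h.1⟩
                  rw [indicator_of_mem h, indicator_of_mem h']
                  refine ENNReal.ofReal_le_ofReal (mul_le_mul_of_nonneg_left ?_ (by positivity))
                  have h5 : W u ≤ C3 * W t := by
                    have h6 : |(u - t) * ℓ| ≤ A := by
                      rw [abs_mul, abs_of_pos hℓ0, abs_of_nonneg (by linarith [h.1])]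
                      have h7 : u - t ≤ a := by linarith [h.2]
                      calc (u - t) * ℓ ≤ a * ℓ := mul_le_mul_of_nonneg_right h7 hℓ0.le
                        _ = A := by rw [ha]; field_simp
                    have h8 : ((u - t) * ℓ) ^ 2 ≤ A ^ 2 := by
                      rw [← sq_abs]
                      exact pow_le_pow_left₀ (abs_nonneg _) h6 _
                    have h9 := (hW0 t).le
                    calc W u ≤ K * W t * (1 + ((u - t) * ℓ) ^ 2) ^ M := hWW u t
                      _ ≤ K * W t * (1 + A ^ 2) ^ M := by gcongr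
                      _ = _ := by rw [hC3]; ring
                  rw [mul_div_assoc', div_le_div_iff₀ (hW0 t) (hW0 u)]
                  have := mul_le_mul_of_nonneg_left h5 (hΦ0 u)
                  linarith
                · rw [indicator_of_notMem h]
                  exact bot_le
            _ = ENNReal.ofReal (CR * C3 * (Φ u / W u)) := by
                rw [lintegral_indicator measurableSet_Icc, setLIntegral_const, Real.volume_Icc,
                  ← ENNReal.ofReal_mul (by
                    have := hΦ0 u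
                    have := (hW0 u).le
                    positivity)]
                congr 1
                have := (hW0 u).ne'
                field_simp
                ring
      _ = ENNReal.ofReal (CR * C3 * IE) := by
          rw [← ofReal_integral_eq_lintegral_ofReal (hint0.integrableOn.const_mul _), integral_const_mul]
          exact Eventually.of_forall fun u => by
            have := hΦ0 u
            have := (hW0 u).le
            show (0:ℝ) ≤ _
            positivity
  have hIE0 : 0 ≤ IE := integral_nonneg fun u => div_nonneg (hΦ0 u) (hW0 u).le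
  have hmain : ∫ u in Gd, Φ u / W u ≤ η * C1 * (C2 * J0) + CR * C3 * IE := by
    have h1 : ENNReal.ofReal (∫ u in Gd, Φ u / W u) ≤
        ENNReal.ofReal (η * C1 * (C2 * J0) + CR * C3 * IE) := by
      rw [ofReal_integral_eq_lintegral_ofReal hint0.integrableOn (Eventually.of_forall fun u =>
        div_nonneg (hΦ0 u) (hW0 u).le), ENNReal.ofReal_add (by positivity) (by positivity)]
      refine (setLIntegral_mono' hGd hP).trans ?_
      rw [lintegral_add_left']
      · exact add_le_add hT1 hT2
      · -- measurability of the first term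
        have e1 : (fun t => ENNReal.ofReal (η * C1 * (ℓ * (JJ f k ℓ t (M + 1) / W t)))) = fun t =>
            ENNReal.ofReal (η * C1) * (ENNReal.ofReal (ℓ / W t) *
              ∫⁻ u, ENNReal.ofReal (Φ u / (1 + ((u - t) * ℓ) ^ 2) ^ (M + 1))) := by
          funext t
          unfold JJ
          rw [← ofReal_integral_eq_lintegral_ofReal (hint t) (Eventually.of_forall fun u => by positivity),
            ← ENNReal.ofReal_mul (by have := (hW0 t).le; positivity), ← ENNReal.ofReal_mul (by positivity)]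
          congr 1
          ring
        rw [e1]
        have hm2 : Measurable (Function.uncurry fun t u : ℝ =>
            ENNReal.ofReal (Φ u / (1 + ((u - t) * ℓ) ^ 2) ^ (M + 1))) := by
          apply Measurable.ennreal_ofReal
          apply Continuous.measurable
          refine (hΦc.comp continuous_snd).div (by fun_prop) fun p => ?_
          positivity
        have hm3 : Measurable fun t : ℝ => ENNReal.ofReal (ℓ / W t) :=
          Measurable.ennreal_ofReal (Continuous.measurable (continuous_const.div hWc fun t => (hW0 t).ne'))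
        exact (measurable_const.mul (hm3.mul hm2.lintegral_prod_right')).aemeasurable
    exact (ENNReal.ofReal_le_ofReal_iff (by positivity)).1 h1
  have hsplit : J0 = (∫ u in Gd, Φ u / W u) + tail := by
    rw [hJ0, htail, integral_add_compl hGd hint0]
  have hη1 : η * C1 * (C2 * J0) ≤ 1 / 2 * J0 := by
    have h3 : η * C1 * C2 ≤ 1 / 2 := by
      rw [hη, div_mul_eq_mul_div, div_mul_eq_mul_div, div_le_div_iff₀ (by positivity) (by norm_num)]
      nlinarith [mul_nonneg hC1 hC20]
    calc η * C1 * (C2 * J0) = η * C1 * C2 * J0 := by ring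
      _ ≤ _ := mul_le_mul_of_nonneg_right h3 hJ00
  show J0 ≤ 2 * (CR * C3) * IE + 2 * tail
  linarith

end Pool.Agent.K4H72.TS
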