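import Mathlib
import Pool.Agent.K4H72.TS.Abs
import Pool.Agent.K4H72.SC.Fm

/-!
Standard L-functions: growth, reflection, the pointwise bound.
-/

set_option autoImplicit false

open MeasureTheory Filter Topology Set Complex
open scoped ENNReal

namespace Pool.Agent.K4H72.TS

open Pool.Agent.K4H72.MZ Pool.Agent.K4H72.SC Pool.Agent.R402.Eul

theorem fn_std (n : ℕ) (θ A : ℝ) (hθ : θ < 1 / 2) : ∃ C1 : ℝ, 0 ≤ C1 ∧ ∀ D : StdL n, D.IsStandard θ A →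
    Fn D.L (2 * n) (C1 * D.cond (1 / 2) ^ 2) := by
  obtain ⟨C0, hC0, hconv⟩ := conv_gen n θ A hθ (a := 1 / 4) (κ := 1) (by norm_num) le_rfl one_pos
  obtain ⟨B, hB0, hB⟩ := G_small θ A hθ n (δ := 1 / 4) (κ := 1) (by norm_num) (by norm_num) one_pos
  refine ⟨C0 + Real.exp B, by positivity, fun D H => ⟨H.entire.differentiableOn, fun s hs => ?_⟩⟩
  have hQ1 := one_le_cond H.q_pos (1 / 2)
  set Q : ℝ := D.cond (1 / 2) with hQ
  have hu : 1 ≤ (1 + |s.im|) ^ (2 * n) := one_le_pow₀ (by linarith [abs_nonneg s.im])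
  have hQ2 : Q ≤ Q ^ 2 := by nlinarith
  rcases le_total s.re (5 / 4) with h | h
  · have h1 := hconv D H s (by linarith) (by linarith)
    have h2 := cond_shift D 0 s.im
    rw [zero_add, Complex.ofReal_zero, zero_mul, add_zero, ← hQ, Real.rpow_natCast] at h2
    have h3 := one_le_cond H.q_pos (1 / 2 + (s.im : ℂ) * I)
    have h4 : D.cond (1 / 2 + (s.im : ℂ) * I) ^ ((1 + 1 / 4 - s.re) / 2 + 1) ≤
        D.cond (1 / 2 + (s.im : ℂ) * I) ^ (2 : ℝ) :=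
      Real.rpow_le_rpow_of_exponent_le h3 (by linarith)
    have h5 : D.cond (1 / 2 + (s.im : ℂ) * I) ^ (2 : ℝ) ≤ ((1 + |s.im|) ^ n * Q) ^ 2 := by
      rw [Real.rpow_two]
      exact pow_le_pow_left₀ (by linarith) h2 _
    calc ‖D.L s‖ ≤ C0 * D.cond (1 / 2 + (s.im : ℂ) * I) ^ ((1 + 1 / 4 - s.re) / 2 + 1) := h1
      _ ≤ C0 * ((1 + |s.im|) ^ n * Q) ^ 2 := mul_le_mul_of_nonneg_left (h4.trans h5) hC0
      _ = C0 * (Q ^ 2 * (1 + |s.im|) ^ (2 * n)) := by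
          rw [mul_pow, ← pow_mul, mul_comm n 2, mul_comm (Q ^ 2)]
      _ ≤ (C0 + Real.exp B) * (Q ^ 2 * (1 + |s.im|) ^ (2 * n)) := by
          refine mul_le_mul_of_nonneg_right (by linarith [Real.exp_pos B]) (by positivity)
      _ = _ := by ring
  · obtain ⟨g, hg1, hg2⟩ := hB D H s (by linarith) 0
    rw [Complex.ofReal_zero, zero_mul, add_zero, ← hQ, one_mul] at hg2
    have h1 : ‖D.L s‖ ≤ Real.exp B * Q := by
      rw [hg1, Complex.norm_exp]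
      calc Real.exp g.re ≤ Real.exp (Real.log Q + B) := Real.exp_le_exp.2 ((Complex.re_le_norm _).trans hg2)
        _ = _ := by rw [Real.exp_add, Real.exp_log (by linarith)]; ring
    calc ‖D.L s‖ ≤ Real.exp B * Q := h1
      _ ≤ Real.exp B * Q ^ 2 := mul_le_mul_of_nonneg_left hQ2 (Real.exp_pos _).le
      _ ≤ (C0 + Real.exp B) * Q ^ 2 := mul_le_mul_of_nonneg_right (by linarith) (by positivity)
      _ ≤ _ := le_mul_of_one_le_right (by positivity) hu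

theorem rf_std {n : ℕ} {θ A : ℝ} (hθ : θ < 1 / 2) {D : StdL n} (H : D.IsStandard θ A) {t0 b ℓ R κ : ℝ}
    (hℓ : 0 < ℓ) (hR : 0 ≤ R) (hb : b = R / ℓ) (hb1 : b ≤ 1 / 8) (hκ : 0 ≤ κ)
    (ht : D.cond (1 / 2 + (t0 : ℂ) * I) ≤ Real.exp (κ * ℓ)) : Rf D.L t0 b (48 ^ n * Real.exp (κ * R)) := by
  intro x u hx0 hx hu
  have hx8 : x ≤ 1 / 8 := hx.trans hb1
  have h1 := refl_at H.q_pos D.μ (fun j => by linarith [H.arch j]) H.w_norm H.functional u (t := 0)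
    hx0 (by linarith)
  have e : ∀ y : ℝ, ((y : ℝ) : ℂ) + ((0:ℝ):ℂ) * I + u * I = ⟨y, u⟩ := by
    intro y
    apply Complex.ext <;> simp
  rw [e, e, abs_zero, add_zero, Real.one_rpow, mul_one] at h1
  refine h1.trans ?_
  refine mul_le_mul_of_nonneg_right ?_ (norm_nonneg _)
  have h2 := cond_shift D t0 (u - t0)
  rw [add_sub_cancel, Real.rpow_natCast] at h2
  have h3 : (1 + |u - t0|) ^ n ≤ 2 ^ n := pow_le_pow_left₀ (by positivity) (by linarith) _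
  have h4 := one_le_cond H.q_pos (1 / 2 + (u : ℂ) * I)
  have h5 : D.cond (1 / 2 + (u : ℂ) * I) ≤ 2 ^ n * Real.exp (κ * ℓ) :=
    h2.trans (mul_le_mul h3 ht (by linarith [one_le_cond H.q_pos (1 / 2 + (t0 : ℂ) * I)]) (by positivity))
  have h6 : D.cond (1 / 2 + (u : ℂ) * I) ^ x ≤ 2 ^ n * Real.exp (κ * R) := by
    have h7 : ((2:ℝ) ^ n) ^ x ≤ 2 ^ n := by
      have h8 : (1:ℝ) ≤ 2 ^ n := one_le_pow₀ (by norm_num)
      calc ((2:ℝ) ^ n) ^ x ≤ ((2:ℝ) ^ n) ^ (1:ℝ) := Real.rpow_le_rpow_of_exponent_le h8 (by linarith)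
        _ = _ := Real.rpow_one _
    have h9 : Real.exp (κ * ℓ) ^ x ≤ Real.exp (κ * R) := by
      rw [← Real.exp_mul, Real.exp_le_exp]
      have hbl : b * ℓ = R := by rw [hb]; field_simp
      have h10 : x * ℓ ≤ R := by
        rw [← hbl]
        exact mul_le_mul_of_nonneg_right hx hℓ.le
      calc κ * ℓ * x = κ * (x * ℓ) := by ring
        _ ≤ κ * R := mul_le_mul_of_nonneg_left h10 hκ
    calc D.cond (1 / 2 + (u : ℂ) * I) ^ x ≤ (2 ^ n * Real.exp (κ * ℓ)) ^ x :=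
          Real.rpow_le_rpow (by linarith) h5 hx0
      _ = ((2:ℝ) ^ n) ^ x * Real.exp (κ * ℓ) ^ x := Real.mul_rpow (by positivity) (Real.exp_pos _).le
      _ ≤ _ := mul_le_mul h7 h9 (Real.rpow_nonneg (Real.exp_pos _).le _) (by positivity)
  calc 24 ^ n * (D.q * ∏ j, (1 + ‖1 / 2 + (u : ℂ) * I + D.μ j‖)) ^ x
      ≤ 24 ^ n * (2 ^ n * Real.exp (κ * R)) := mul_le_mul_of_nonneg_left h6 (by positivity)
    _ = 48 ^ n * Real.exp (κ * R) := by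
        rw [← mul_assoc, ← mul_pow]
        norm_num

/-- the pointwise bound -/
theorem std_pt (n : ℕ) (θ A0 : ℝ) (hθ : θ < 1 / 2) {k M : ℕ} (hk : 1 ≤ k) (hM : 2 * n * k + 1 ≤ M) {A B κ : ℝ}
    (hA : 0 < A) (hκ : 0 ≤ κ) : ∃ C' ℓ0 : ℝ, 0 ≤ C' ∧ 2 ≤ ℓ0 ∧ ∀ D : StdL n, D.IsStandard θ A0 →
      ∀ ℓ t0 : ℝ, ℓ0 ≤ ℓ → D.cond (1 / 2 + (t0 : ℂ) * I) ≤ Real.exp (κ * ℓ) → ∀ S : Finset ℂ,
      (∀ z ∈ S, ‖z - ⟨1 / 2, t0⟩‖ ≤ A / ℓ) → ∀ w : ℂ, ‖w - ⟨1 / 2, t0⟩‖ ≤ A / ℓ →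
        Real.exp (B * ((∑ z ∈ S, analyticOrderNatAt D.L z : ℕ) : ℝ)) * ‖D.L w‖ ^ k ≤
          C' * (ℓ * JJ D.L k ℓ t0 M) := by
  obtain ⟨C1, hC1, hfn⟩ := fn_std n θ A0 hθ
  set R : ℝ := 6 * A + 4 * A * Real.exp B with hR
  have hR0 : 0 < R := by positivity
  set K : ℝ := 48 ^ n * Real.exp (κ * R) with hK
  have hK1 : 1 ≤ K := by
    rw [hK]
    have h1 := Real.one_le_exp (x := κ * R) (by positivity)
    have h2 : (1:ℝ) ≤ 48 ^ n := one_le_pow₀ (by norm_num)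
    nlinarith
  have hpi := Real.pi_pos
  refine ⟨8 / (Real.pi * R) * (K ^ k * (1 + 2 * R) ^ (2 * M)), max 2 (8 * R), by positivity,
    le_max_left _ _, fun D H ℓ t0 hℓ ht S hS w hw => ?_⟩
  have hℓ2 : 2 ≤ ℓ := (le_max_left _ _).trans hℓ
  have hℓ0 : 0 < ℓ := by linarith
  have hb : 0 < R / ℓ := by positivity
  have hb1 : R / ℓ ≤ 1 / 8 := by
    rw [div_le_iff₀ hℓ0]
    have := (le_max_right _ _).trans hℓ
    linarith
  have hAR : 6 * (A / ℓ) < R / ℓ := by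
    rw [mul_div_assoc', div_lt_div_iff_of_pos_right hℓ0, hR]
    have : 0 < A * Real.exp B := by positivity
    nlinarith
  have h1 := with_zeros (hfn D H) (k := k) (M := M) hk hM (ℓ := ℓ) (t0 := t0) (b := R / ℓ) (K := K)
    (r0 := A / ℓ) hℓ2 hb hb1 hK1 (rf_std hθ H hℓ0 hR0.le rfl hb1 hκ ht) (by positivity) hAR S hS hw
  have hq : (R / ℓ / 2 - A / ℓ) / (2 * (A / ℓ)) = 1 + Real.exp B := by
    rw [hR]
    field_simp
    ring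
  rw [hq] at h1
  set m : ℕ := ∑ z ∈ S, analyticOrderNatAt D.L z with hm
  have h2 : Real.exp (B * (m : ℝ)) ≤ ((1 + Real.exp B) ^ m) ^ k := by
    have h3 : Real.exp (B * (m : ℝ)) = (Real.exp B) ^ m := by
      rw [← Real.exp_nat_mul]
      ring_nf
    rw [h3]
    have hE : 1 ≤ (1 + Real.exp B) ^ m := one_le_pow₀ (by linarith [Real.exp_pos B])
    calc Real.exp B ^ m ≤ (1 + Real.exp B) ^ m := pow_le_pow_left₀ (Real.exp_pos B).le (by linarith) _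
      _ = ((1 + Real.exp B) ^ m) ^ 1 := (pow_one _).symm
      _ ≤ ((1 + Real.exp B) ^ m) ^ k := pow_le_pow_right₀ hE hk
  have e1 : 1 + 2 * (R / ℓ) * ℓ = 1 + 2 * R := by
    field_simp
  have e2 : 8 / (Real.pi * (R / ℓ)) = 8 / (Real.pi * R) * ℓ := by
    field_simp
  rw [e1, e2] at h1
  calc Real.exp (B * (m : ℝ)) * ‖D.L w‖ ^ k
      ≤ ((1 + Real.exp B) ^ m) ^ k * ‖D.L w‖ ^ k := mul_le_mul_of_nonneg_right h2 (by positivity)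
    _ ≤ 8 / (Real.pi * R) * ℓ * (K ^ k * (1 + 2 * R) ^ (2 * M) * JJ D.L k ℓ t0 M) := h1
    _ = _ := by ring

/-- Cauchy's estimates for entire functions -/
lemma cauchy_bd {f : ℂ → ℂ} (hf : Differentiable ℂ f) {k j : ℕ} (hk : 1 ≤ k) {ℓ A V : ℝ} {c : ℂ} (hℓ : 0 < ℓ)
    (h : ∀ w : ℂ, ‖w - c‖ ≤ (A + 1) / ℓ → ‖f w‖ ^ k ≤ V) {z : ℂ} (hz : ‖z - c‖ ≤ A / ℓ) :
    ‖iteratedDeriv j f z‖ ^ k ≤ ((j.factorial : ℝ) * ℓ ^ j) ^ k * V := by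
  have hadd : A / ℓ + 1 / ℓ = (A + 1) / ℓ := by rw [← add_div]
  have h1ℓ : 0 < 1 / ℓ := by positivity
  have hin : ∀ w : ℂ, ‖w - z‖ ≤ 1 / ℓ → ‖w - c‖ ≤ (A + 1) / ℓ := by
    intro w hw
    calc ‖w - c‖ = ‖(w - z) + (z - c)‖ := by ring_nf
      _ ≤ ‖w - z‖ + ‖z - c‖ := norm_add_le _ _
      _ ≤ (A + 1) / ℓ := by linarith
  have hV : 0 ≤ V := (by positivity : (0:ℝ) ≤ ‖f z‖ ^ k).trans (h z (hz.trans (by linarith)))
  set m : ℝ := V ^ ((k : ℝ)⁻¹) with hm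
  have hm0 : 0 ≤ m := Real.rpow_nonneg hV _
  have hmk : m ^ k = V := Real.rpow_inv_natCast_pow hV (by omega)
  have hb : ∀ w ∈ Metric.sphere z (1 / ℓ), ‖f w‖ ≤ m := by
    intro w hw
    rw [mem_sphere_iff_norm] at hw
    have h2 := h w (hin w hw.le)
    rw [← hmk] at h2
    exact (pow_le_pow_iff_left₀ (norm_nonneg _) hm0 (by omega)).1 h2
  have key := norm_iteratedDeriv_le_of_forall_mem_sphere_norm_le j h1ℓ hf.diffContOnCl hb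
  have e : (j.factorial : ℝ) * m / (1 / ℓ) ^ j = ((j.factorial : ℝ) * ℓ ^ j) * m := by
    rw [one_div, inv_pow, div_inv_eq_mul]
    ring
  rw [e] at key
  calc ‖iteratedDeriv j f z‖ ^ k ≤ (((j.factorial : ℝ) * ℓ ^ j) * m) ^ k :=
        pow_le_pow_left₀ (norm_nonneg _) key _
    _ = _ := by rw [mul_pow, hmk]

theorem std_deriv (n : ℕ) (θ A0 : ℝ) (hθ : θ < 1 / 2) {k M : ℕ} (hk : 1 ≤ k) (hM : 2 * n * k + 1 ≤ M) {A κ : ℝ}
    (B : ℝ) (hA : 0 < A) (hκ : 0 ≤ κ) : ∃ C' ℓ0 : ℝ, 0 ≤ C' ∧ 2 ≤ ℓ0 ∧ ∀ D : StdL n, D.IsStandard θ A0 →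
      ∀ ℓ t0 : ℝ, ℓ0 ≤ ℓ → D.cond (1 / 2 + (t0 : ℂ) * I) ≤ Real.exp (κ * ℓ) → ∀ S : Finset ℂ,
      (∀ z ∈ S, ‖z - ⟨1 / 2, t0⟩‖ ≤ A / ℓ) → ∀ (j : ℕ) (w : ℂ), ‖w - ⟨1 / 2, t0⟩‖ ≤ A / ℓ →
        Real.exp (B * ((∑ z ∈ S, analyticOrderNatAt D.L z : ℕ) : ℝ)) * ‖iteratedDeriv j D.L w‖ ^ k ≤
          ((j.factorial : ℝ) * ℓ ^ j) ^ k * (C' * (ℓ * JJ D.L k ℓ t0 M)) := by
  obtain ⟨C', ℓ0, hC', hℓ0, h⟩ := std_pt n θ A0 hθ (k := k) (M := M) hk hM (A := A + 1) (B := B) (by linarith) hκ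
  refine ⟨C', ℓ0, hC', hℓ0, fun D H ℓ t0 hℓ ht S hS j w hw => ?_⟩
  have hℓp : 0 < ℓ := by linarith
  have hAA : A / ℓ ≤ (A + 1) / ℓ := div_le_div_of_nonneg_right (by linarith) hℓp.le
  set m : ℕ := ∑ z ∈ S, analyticOrderNatAt D.L z with hm
  have hE : 0 < Real.exp (B * (m : ℝ)) := Real.exp_pos _
  have key := cauchy_bd H.entire (k := k) (j := j) hk hℓp (c := ⟨1 / 2, t0⟩) (A := A)
    (V := (C' * (ℓ * JJ D.L k ℓ t0 M)) / Real.exp (B * (m : ℝ))) (fun z hz => by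
      rw [le_div_iff₀ hE, mul_comm]
      exact h D H ℓ t0 hℓ ht S (fun z hz => (hS z hz).trans hAA) z hz) hw
  calc Real.exp (B * (m : ℝ)) * ‖iteratedDeriv j D.L w‖ ^ k
      ≤ Real.exp (B * (m : ℝ)) * (((j.factorial : ℝ) * ℓ ^ j) ^ k *
          ((C' * (ℓ * JJ D.L k ℓ t0 M)) / Real.exp (B * (m : ℝ)))) :=
        mul_le_mul_of_nonneg_left key hE.le
    _ = _ := by field_simp

end Pool.Agent.K4H72.TS
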