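import Mathlib
import Pool.Agent.K4H72.TS.Lf
import Pool.Agent.K4H72.SC.Dirx

/-!
Thick sets and L-functions of degree one.
-/

set_option autoImplicit false

open MeasureTheory Filter Topology Set Complex
open scoped ENNReal

namespace Pool.Agent.K4H72.TS

open Pool.Agent.K4H72.MZ Pool.Agent.K4H72.SC Pool.Agent.R402.Eul

lemma line_cont' {f : ℂ → ℂ} (hf : Differentiable ℂ f) : Continuous fun u : ℝ => f ⟨1 / 2, u⟩ := by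
  have hc : Continuous fun u : ℝ => (⟨1 / 2, u⟩ : ℂ) := by
    have : Continuous (fun u : ℝ => ((1 / 2 : ℝ) : ℂ) + (u : ℂ) * I) := by fun_prop
    exact this.congr (fun u => (mk_eq _ _).symm)
  exact hf.continuous.comp hc

lemma int_std {f : ℂ → ℂ} {N : ℕ} {C : ℝ} (hf : Fn f N C) {k M : ℕ} (hM : N * k + 1 ≤ M) {ℓ : ℝ} (hℓ : 2 ≤ ℓ)
    (t0 : ℝ) : Integrable fun u : ℝ => ‖f ⟨1 / 2, u⟩‖ ^ k / (1 + ((u - t0) * ℓ) ^ 2) ^ M := by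
  refine (JJ_int hf hM (t0 := t0) hℓ).congr (Eventually.of_forall fun u => ?_)
  exact gg_norm0 f k ℓ t0 M u

lemma tail_pt {C1 v ℓ : ℝ} {k M P : ℕ} (hC1 : 0 ≤ C1) (hℓ : 1 ≤ ℓ) (hM : 2 * k + 2 + P ≤ M)
    (hv : Real.exp ℓ ≤ v) {y : ℝ} (hy0 : 0 ≤ y) (hy : y ≤ C1 * (3 * Real.exp ℓ) ^ 2 * (1 + v) ^ 2) :
    y ^ k / (1 + (v * ℓ) ^ 2) ^ M ≤ (36 * C1) ^ k * Real.exp (-((P + 1 : ℕ) : ℝ) * ℓ) * (2 * (1 + v ^ 2)⁻¹) := by
  have hE1 : 1 ≤ Real.exp ℓ := Real.one_le_exp (by linarith)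
  have hv1 : 1 ≤ v := hE1.trans hv
  have hv0 : 0 < v := by linarith
  obtain ⟨Q, rfl⟩ : ∃ Q, M = 2 * k + (1 + (P + 1 + Q)) := ⟨M - (2 * k + 2 + P), by omega⟩
  have h1 : y ≤ 36 * C1 * v ^ 4 := by
    refine hy.trans ?_
    have h2 : (3 * Real.exp ℓ) ^ 2 ≤ (3 * v) ^ 2 := pow_le_pow_left₀ (by positivity) (by linarith) _
    have h3 : (1 + v) ^ 2 ≤ (2 * v) ^ 2 := pow_le_pow_left₀ (by positivity) (by linarith) _
    calc C1 * (3 * Real.exp ℓ) ^ 2 * (1 + v) ^ 2 ≤ C1 * (3 * v) ^ 2 * (2 * v) ^ 2 := by gcongr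
      _ = _ := by ring
  have h4 : y ^ k ≤ (36 * C1) ^ k * v ^ (4 * k) := by
    calc y ^ k ≤ (36 * C1 * v ^ 4) ^ k := pow_le_pow_left₀ hy0 h1 _
      _ = _ := by rw [mul_pow, ← pow_mul]
  have h5 : (v ^ 2) ^ (2 * k) * ((1 + v ^ 2) / 2 * v ^ (P + 1)) ≤ (1 + (v * ℓ) ^ 2) ^ (2 * k + (1 + (P + 1 + Q))) := by
    have hX : v ^ 2 ≤ 1 + (v * ℓ) ^ 2 := by
      have : v ≤ v * ℓ := le_mul_of_one_le_right hv0.le hℓ
      have h6 : v ^ 2 ≤ (v * ℓ) ^ 2 := pow_le_pow_left₀ hv0.le this _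
      linarith
    set X : ℝ := 1 + (v * ℓ) ^ 2 with hXd
    have hv2 : 1 ≤ v ^ 2 := one_le_pow₀ hv1
    have hX1 : 1 ≤ X := hv2.trans hX
    have hvX : v ≤ X := (by nlinarith : v ≤ v ^ 2).trans hX
    rw [pow_add X (2 * k) (1 + (P + 1 + Q)), pow_add X 1 (P + 1 + Q), pow_one, pow_add X (P + 1) Q]
    have h7 : (v ^ 2) ^ (2 * k) ≤ X ^ (2 * k) := pow_le_pow_left₀ (by positivity) hX _
    have h8 : (1 + v ^ 2) / 2 ≤ X := by linarith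
    have h9 : v ^ (P + 1) ≤ X ^ (P + 1) * X ^ Q := by
      calc v ^ (P + 1) ≤ X ^ (P + 1) := pow_le_pow_left₀ hv0.le hvX _
        _ ≤ X ^ (P + 1) * X ^ Q := le_mul_of_one_le_right (by positivity) (one_le_pow₀ hX1)
    gcongr
  have h10 : Real.exp (((P + 1 : ℕ) : ℝ) * ℓ) ≤ v ^ (P + 1) := by
    rw [Real.exp_nat_mul]
    exact pow_le_pow_left₀ (Real.exp_pos _).le hv _
  have h11 : 0 < (v ^ 2) ^ (2 * k) * ((1 + v ^ 2) / 2 * v ^ (P + 1)) := by positivity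
  calc y ^ k / (1 + (v * ℓ) ^ 2) ^ (2 * k + (1 + (P + 1 + Q)))
      ≤ (36 * C1) ^ k * v ^ (4 * k) / ((v ^ 2) ^ (2 * k) * ((1 + v ^ 2) / 2 * v ^ (P + 1))) :=
        div_le_div₀ (by positivity) h4 h11 h5
    _ = (36 * C1) ^ k * (v ^ (P + 1))⁻¹ * (2 * (1 + v ^ 2)⁻¹) := by
        have e : (v ^ 2) ^ (2 * k) = v ^ (4 * k) := by rw [← pow_mul]; ring_nf
        rw [e]
        have : 0 < v ^ (4 * k) := by positivity
        field_simp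
    _ ≤ (36 * C1) ^ k * Real.exp (-((P + 1 : ℕ) : ℝ) * ℓ) * (2 * (1 + v ^ 2)⁻¹) := by
        rw [neg_mul, Real.exp_neg]
        gcongr

lemma tail_int {f : ℂ → ℂ} {C1 ℓ Q : ℝ} (hC1 : 0 ≤ C1) (hQ0 : 0 ≤ Q) (hQ : Q ≤ 3 * Real.exp ℓ)
    (hf : Fn f 2 (C1 * Q ^ 2)) {k M P : ℕ} (hM : 2 * k + 2 + P ≤ M) (hℓ : 2 ≤ ℓ) :
    ∫ u in (Icc (-Real.exp ℓ) (Real.exp ℓ))ᶜ, ‖f ⟨1 / 2, u⟩‖ ^ k / (1 + (u * ℓ) ^ 2) ^ M ≤
      (36 * C1) ^ k * (2 * Real.pi) * Real.exp (-((P + 1 : ℕ) : ℝ) * ℓ) := by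
  have hint0 := int_std hf (k := k) (M := M) (by omega) hℓ 0
  simp only [sub_zero] at hint0
  have hg : Integrable fun u : ℝ => (36 * C1) ^ k * Real.exp (-((P + 1 : ℕ) : ℝ) * ℓ) * (2 * (1 + u ^ 2)⁻¹) :=
    (integrable_inv_one_add_sq.const_mul 2).const_mul _
  calc ∫ u in (Icc (-Real.exp ℓ) (Real.exp ℓ))ᶜ, ‖f ⟨1 / 2, u⟩‖ ^ k / (1 + (u * ℓ) ^ 2) ^ M
      ≤ ∫ u in (Icc (-Real.exp ℓ) (Real.exp ℓ))ᶜ, (36 * C1) ^ k * Real.exp (-((P + 1 : ℕ) : ℝ) * ℓ) * (2 * (1 + u ^ 2)⁻¹) := by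
        refine setIntegral_mono_on hint0.integrableOn hg.integrableOn measurableSet_Icc.compl fun u hu => ?_
        have hv : Real.exp ℓ ≤ |u| := by
          by_contra h
          push Not at h
          rw [abs_lt] at h
          exact hu ⟨by linarith, by linarith⟩
        have h1 := hf.grow ⟨1 / 2, u⟩ le_rfl
        have h2 : ‖f ⟨1 / 2, u⟩‖ ≤ C1 * (3 * Real.exp ℓ) ^ 2 * (1 + |u|) ^ 2 := by
          refine h1.trans ?_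
          show C1 * Q ^ 2 * (1 + |u|) ^ 2 ≤ _
          gcongr
        have h3 := tail_pt (k := k) (M := M) (P := P) hC1 (by linarith) hM hv (norm_nonneg _) h2
        rw [mul_pow |u| ℓ 2, sq_abs, ← mul_pow u ℓ 2] at h3
        exact h3
    _ ≤ ∫ u, (36 * C1) ^ k * Real.exp (-((P + 1 : ℕ) : ℝ) * ℓ) * (2 * (1 + u ^ 2)⁻¹) := by
        refine setIntegral_le_integral hg (Eventually.of_forall fun u => ?_)
        show (0:ℝ) ≤ _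
        positivity
    _ = _ := by
        rw [integral_const_mul, integral_const_mul, integral_univ_inv_one_add_sq]
        ring

lemma cond_le {D : StdL 1} {ℓ t : ℝ} (hℓ : 2 ≤ ℓ) (hq : D.cond (1 / 2) ≤ 3 * Real.exp ℓ)
    (ht : |t| ≤ Real.exp ℓ) : D.cond (1 / 2 + (t : ℂ) * I) ≤ Real.exp (4 * ℓ) := by
  have h2 := cond_shift D 0 t
  rw [zero_add, Complex.ofReal_zero, zero_mul, add_zero, Nat.cast_one, Real.rpow_one] at h2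
  set e : ℝ := Real.exp ℓ with he
  have he2 : 3 ≤ e := by
    rw [he]
    have := Real.add_one_le_exp ℓ
    linarith
  have h3 : Real.exp (4 * ℓ) = e ^ 4 := by
    rw [he, ← Real.exp_nat_mul]
    norm_num
  rw [h3]
  calc D.cond (1 / 2 + (t : ℂ) * I) ≤ (1 + |t|) * D.cond (1 / 2) := h2
    _ ≤ (1 + e) * (3 * e) := by
        refine mul_le_mul (by linarith) hq ?_ (by positivity)
        unfold StdL.cond
        positivity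
    _ ≤ e ^ 4 := by
        have h4 : (1 + e) ≤ e ^ 2 := by nlinarith
        have h5 : 3 * e ≤ e ^ 2 := by nlinarith
        calc (1 + e) * (3 * e) ≤ e ^ 2 * e ^ 2 := mul_le_mul h4 h5 (by positivity) (by positivity)
          _ = _ := by ring

/-- the two estimates -/
theorem fin_pt (θ A0 : ℝ) (hθ : θ < 1 / 2) {k : ℕ} (hk : 1 ≤ k) (j P : ℕ) {M : ℕ} (hM : 2 * k + 2 + P ≤ M)
    {A γ : ℝ} (B : ℝ) (hA : 0 < A) (hγ : 0 < γ) (hγ1 : γ ≤ 1) :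
    ∃ C ℓ0 : ℝ, 0 ≤ C ∧ 2 ≤ ℓ0 ∧ ∀ D : StdL 1, D.IsStandard θ A0 → ∀ ℓ : ℝ, ℓ0 ≤ ℓ →
      D.cond (1 / 2) ≤ 3 * Real.exp ℓ → ∀ E : Set ℝ, MeasurableSet E → Thick E (A / ℓ) γ →
      (∫ u, ‖D.L ⟨1 / 2, u⟩‖ ^ k / (1 + (u * ℓ) ^ 2) ^ M) ≤
          C * (∫ u in E, ‖D.L ⟨1 / 2, u⟩‖ ^ k / (1 + (u * ℓ) ^ 2) ^ M) + Real.exp (-(P : ℝ) * ℓ) ∧
      ∀ S : Finset ℂ, (∀ z ∈ S, ‖z - ⟨1 / 2, 0⟩‖ ≤ A / ℓ) → ∀ w : ℂ, ‖w - ⟨1 / 2, 0⟩‖ ≤ A / ℓ →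
        Real.exp (B * ((∑ z ∈ S, analyticOrderNatAt D.L z : ℕ) : ℝ)) * ‖iteratedDeriv j D.L w‖ ^ k ≤
          C * ℓ ^ (j * k + 1) * (∫ u in E, ‖D.L ⟨1 / 2, u⟩‖ ^ k / (1 + (u * ℓ) ^ 2) ^ M) +
            Real.exp (-(P : ℝ) * ℓ) := by
  obtain ⟨C1, hC1, hfn⟩ := fn_std 1 θ A0 hθ
  obtain ⟨C2, ℓ2, hC2, hℓ2, hder⟩ := std_deriv 1 θ A0 hθ (k := k) (M := M) hk (by omega) (A := A) (κ := 4) B hA
    (by norm_num)
  obtain ⟨C3, ℓ3, hC3, hℓ3, hpt⟩ := std_pt 1 θ A0 hθ (k := k) (M := M) hk (by omega) (A := 7 * A) (B := 0)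
    (κ := 4) (by linarith) (by norm_num)
  obtain ⟨C4, hC4, habs⟩ := absorb k hk M (by omega) (A := A) (γ := γ) (C1 := C3) hA hγ hγ1 hC3
  have hpi := Real.pi_pos
  set Ct : ℝ := (36 * C1) ^ k * (2 * Real.pi) with hCt
  have hCt0 : 0 ≤ Ct := by positivity
  set Cj : ℝ := (j.factorial : ℝ) ^ k * C2 with hCj
  have hCj0 : 0 ≤ Cj := by positivity
  -- ℓ large
  have hev : ∀ᶠ ℓ : ℝ in atTop, 2 * Ct + 2 * (Cj * Ct) ≤ Real.exp ℓ ∧ 2 * (Cj * Ct) * ℓ ^ (j * k + 1) ≤ Real.exp ℓ := by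
    have h1 : Tendsto (fun ℓ : ℝ => ℓ ^ (j * k + 1) * Real.exp (-ℓ)) atTop (𝓝 0) :=
      Real.tendsto_pow_mul_exp_neg_atTop_nhds_zero _
    have h2 : Tendsto (fun ℓ : ℝ => 2 * (Cj * Ct) * (ℓ ^ (j * k + 1) * Real.exp (-ℓ))) atTop (𝓝 (2 * (Cj * Ct) * 0)) :=
      h1.const_mul _
    rw [mul_zero] at h2
    filter_upwards [Real.tendsto_exp_atTop.eventually_ge_atTop (2 * Ct + 2 * (Cj * Ct)),
      h2.eventually_le_const one_pos] with ℓ h3 h4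
    refine ⟨h3, ?_⟩
    rw [← mul_assoc, Real.exp_neg, ← div_eq_mul_inv, div_le_one (Real.exp_pos _)] at h4
    exact h4
  obtain ⟨ℓ4, hℓ4⟩ := eventually_atTop.1 hev
  refine ⟨C4 + Cj * C4, max (max ℓ2 ℓ3) (max ℓ4 (8 * (7 * A) + 8 * (8 * A))), by positivity,
    hℓ2.trans ((le_max_left _ _).trans (le_max_left _ _)), fun D H ℓ hℓ hq E hE hth => ?_⟩
  have hℓ2' : ℓ2 ≤ ℓ := ((le_max_left _ _).trans (le_max_left _ _)).trans hℓ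
  have hℓ3' : ℓ3 ≤ ℓ := ((le_max_right _ _).trans (le_max_left _ _)).trans hℓ
  have hℓ4' : ℓ4 ≤ ℓ := ((le_max_left _ _).trans (le_max_right _ _)).trans hℓ
  have hℓ : 2 ≤ ℓ := hℓ2.trans hℓ2'
  obtain ⟨h5, h6⟩ := hℓ4 ℓ hℓ4'
  have hℓ0 : 0 < ℓ := by linarith
  have hf := hfn D H
  have hQ1 := one_le_cond H.q_pos (1 / 2)
  have hcont := line_cont' H.entire
  have hJ := habs D.L ℓ (Real.exp ℓ) E (by linarith) hE hth hcont (fun t => int_std hf (by omega) hℓ t)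
    (fun t _ => H.entire.differentiableOn) (fun t ht z hz => by
      have := hpt D H ℓ t hℓ3' (cond_le hℓ hq ht) ∅ (by simp) z (by rw [mul_div_assoc]; exact hz)
      simpa using this)
  set IE : ℝ := ∫ u in E, ‖D.L ⟨1 / 2, u⟩‖ ^ k / (1 + (u * ℓ) ^ 2) ^ M with hIE
  have hIE0 : 0 ≤ IE := integral_nonneg fun u => by positivity
  have htail := tail_int (f := D.L) (k := k) (M := M) (P := P) hC1 (by linarith) hq hf hM hℓ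
  set tl : ℝ := ∫ u in (Icc (-Real.exp ℓ) (Real.exp ℓ))ᶜ, ‖D.L ⟨1 / 2, u⟩‖ ^ k / (1 + (u * ℓ) ^ 2) ^ M with htl
  have hsmall : Real.exp (-((P + 1 : ℕ) : ℝ) * ℓ) = Real.exp (-(P : ℝ) * ℓ) * Real.exp (-ℓ) := by
    rw [← Real.exp_add]
    congr 1
    push_cast
    ring
  have hEP := Real.exp_pos (-(P : ℝ) * ℓ)
  rw [hsmall, ← hCt] at htail
  have hinv : Real.exp (-ℓ) = (Real.exp ℓ)⁻¹ := Real.exp_neg _
  have hCC : 0 ≤ Cj * Ct := by positivity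
  have htl2 : 2 * tl ≤ Real.exp (-(P : ℝ) * ℓ) := by
    have h7 : 2 * Ct * Real.exp (-ℓ) ≤ 1 := by
      rw [hinv, ← div_eq_mul_inv, div_le_one (Real.exp_pos _)]
      linarith
    calc 2 * tl ≤ 2 * (Ct * (Real.exp (-(P : ℝ) * ℓ) * Real.exp (-ℓ))) := by linarith
      _ = (2 * Ct * Real.exp (-ℓ)) * Real.exp (-(P : ℝ) * ℓ) := by ring
      _ ≤ 1 * Real.exp (-(P : ℝ) * ℓ) := mul_le_mul_of_nonneg_right h7 hEP.le
      _ = _ := one_mul _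
  have hJe : JJ D.L k ℓ 0 M = ∫ u, ‖D.L ⟨1 / 2, u⟩‖ ^ k / (1 + (u * ℓ) ^ 2) ^ M := by
    unfold JJ
    simp only [sub_zero]
  constructor
  · rw [← hJe]
    have h8 : 0 ≤ Cj * C4 * IE := by positivity
    calc JJ D.L k ℓ 0 M ≤ C4 * IE + 2 * tl := hJ
      _ ≤ (C4 + Cj * C4) * IE + Real.exp (-(P : ℝ) * ℓ) := by nlinarith
  · intro S hS w hw
    have h9 := hder D H ℓ 0 hℓ2' (cond_le hℓ hq (by rw [abs_zero]; positivity)) S hS j w hw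
    refine h9.trans ?_
    have h10 : ((j.factorial : ℝ) * ℓ ^ j) ^ k * (C2 * (ℓ * JJ D.L k ℓ 0 M)) = Cj * ℓ ^ (j * k + 1) * JJ D.L k ℓ 0 M := by
      rw [hCj, mul_pow, ← pow_mul, pow_succ]
      ring
    rw [h10]
    have hP0 : 0 ≤ ℓ ^ (j * k + 1) := by positivity
    have h11 : Cj * ℓ ^ (j * k + 1) * (2 * tl) ≤ Real.exp (-(P : ℝ) * ℓ) := by
      have h12 : 2 * (Cj * Ct) * ℓ ^ (j * k + 1) * Real.exp (-ℓ) ≤ 1 := by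
        rw [hinv, ← div_eq_mul_inv, div_le_one (Real.exp_pos _)]
        exact h6
      calc Cj * ℓ ^ (j * k + 1) * (2 * tl) ≤
            Cj * ℓ ^ (j * k + 1) * (2 * (Ct * (Real.exp (-(P : ℝ) * ℓ) * Real.exp (-ℓ)))) := by
              refine mul_le_mul_of_nonneg_left (by linarith) (by positivity)
        _ = (2 * (Cj * Ct) * ℓ ^ (j * k + 1) * Real.exp (-ℓ)) * Real.exp (-(P : ℝ) * ℓ) := by ring
        _ ≤ 1 * Real.exp (-(P : ℝ) * ℓ) := mul_le_mul_of_nonneg_right h12 hEP.le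
        _ = _ := one_mul _
    calc Cj * ℓ ^ (j * k + 1) * JJ D.L k ℓ 0 M ≤ Cj * ℓ ^ (j * k + 1) * (C4 * IE + 2 * tl) :=
          mul_le_mul_of_nonneg_left hJ (by positivity)
      _ = Cj * C4 * ℓ ^ (j * k + 1) * IE + Cj * ℓ ^ (j * k + 1) * (2 * tl) := by ring
      _ ≤ (C4 + Cj * C4) * ℓ ^ (j * k + 1) * IE + Real.exp (-(P : ℝ) * ℓ) := by
          have : 0 ≤ C4 * ℓ ^ (j * k + 1) * IE := by positivity
          linarith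

end Pool.Agent.K4H72.TS
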