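import Mathlib
import Pool.Agent.K4H72.TS.Fin
import Pool.Agent.K4H72.TS.Abs2

/-!
Thick sets and L-functions of degree one, at all heights.
-/

set_option autoImplicit false

open MeasureTheory Filter Topology Set Complex
open scoped ENNReal

namespace Pool.Agent.K4H72.TS

open Pool.Agent.K4H72.MZ Pool.Agent.K4H72.SC Pool.Agent.R402.Eul

lemma tail_int2 {f : ℂ → ℂ} {C1 ℓ Q t0 : ℝ} (hC1 : 0 ≤ C1) (hQ0 : 0 ≤ Q) (hQ : Q ≤ 3 * Real.exp ℓ)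
    (hf : Fn f 2 (C1 * Q ^ 2)) {k M P : ℕ} (hM : 2 * k + 2 + P ≤ M) (hℓ : 2 ≤ ℓ) (ht : |t0| ≤ Real.exp ℓ) :
    ∫ u in (Icc (-(2 * Real.exp ℓ)) (2 * Real.exp ℓ))ᶜ, ‖f ⟨1 / 2, u⟩‖ ^ k / (1 + ((u - t0) * ℓ) ^ 2) ^ M ≤
      (36 * (4 * C1)) ^ k * (8 * Real.pi) * Real.exp (-((P + 1 : ℕ) : ℝ) * ℓ) := by
  have hint0 := int_std hf (k := k) (M := M) (by omega) hℓ t0
  have hE0 := Real.exp_pos ℓ
  have hg : Integrable fun u : ℝ => (36 * (4 * C1)) ^ k * Real.exp (-((P + 1 : ℕ) : ℝ) * ℓ) * (8 * (1 + u ^ 2)⁻¹) :=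
    (integrable_inv_one_add_sq.const_mul 8).const_mul _
  calc ∫ u in (Icc (-(2 * Real.exp ℓ)) (2 * Real.exp ℓ))ᶜ, ‖f ⟨1 / 2, u⟩‖ ^ k / (1 + ((u - t0) * ℓ) ^ 2) ^ M
      ≤ ∫ u in (Icc (-(2 * Real.exp ℓ)) (2 * Real.exp ℓ))ᶜ,
          (36 * (4 * C1)) ^ k * Real.exp (-((P + 1 : ℕ) : ℝ) * ℓ) * (8 * (1 + u ^ 2)⁻¹) := by
        refine setIntegral_mono_on hint0.integrableOn hg.integrableOn measurableSet_Icc.compl fun u hu => ?_
        have hv : 2 * Real.exp ℓ ≤ |u| := by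
          by_contra h
          push Not at h
          rw [abs_lt] at h
          exact hu ⟨by linarith, by linarith⟩
        set v : ℝ := |u| / 2 with hvd
        have hv1 : Real.exp ℓ ≤ v := by rw [hvd]; linarith
        have hv0 : 0 ≤ v := by positivity
        have h1 := hf.grow ⟨1 / 2, u⟩ le_rfl
        have h2 : ‖f ⟨1 / 2, u⟩‖ ≤ (4 * C1) * (3 * Real.exp ℓ) ^ 2 * (1 + v) ^ 2 := by
          refine h1.trans ?_
          show C1 * Q ^ 2 * (1 + |u|) ^ 2 ≤ _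
          have h3 : (1 + |u|) ^ 2 ≤ 4 * (1 + v) ^ 2 := by
            have e : |u| = 2 * v := by rw [hvd]; ring
            rw [e]
            nlinarith
          calc C1 * Q ^ 2 * (1 + |u|) ^ 2 ≤ C1 * (3 * Real.exp ℓ) ^ 2 * (4 * (1 + v) ^ 2) := by gcongr
            _ = _ := by ring
        have h3 := tail_pt (k := k) (M := M) (P := P) (by positivity : 0 ≤ 4 * C1) (by linarith) hM hv1 (norm_nonneg _) h2
        have h4 : (1 + (v * ℓ) ^ 2) ^ M ≤ (1 + ((u - t0) * ℓ) ^ 2) ^ M := by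
          refine pow_le_pow_left₀ (by positivity) ?_ _
          have h5 : v ≤ |u - t0| := by
            have h6 := abs_sub_abs_le_abs_sub u t0
            have e : |u| = 2 * v := by rw [hvd]; ring
            linarith
          have h6 : (v * ℓ) ^ 2 ≤ ((u - t0) * ℓ) ^ 2 := by
            rw [← sq_abs ((u - t0) * ℓ), abs_mul, abs_of_nonneg (by linarith : 0 ≤ ℓ)]
            exact pow_le_pow_left₀ (by positivity) (mul_le_mul_of_nonneg_right h5 (by linarith)) _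
          linarith
        have h5 : (1 + v ^ 2)⁻¹ ≤ 4 * (1 + u ^ 2)⁻¹ := by
          have e : u ^ 2 = 4 * v ^ 2 := by
            rw [← sq_abs u, hvd]; ring
          rw [e, inv_eq_one_div, ← div_eq_mul_inv, div_le_div_iff₀ (by positivity) (by positivity)]
          nlinarith [sq_nonneg v]
        calc ‖f ⟨1 / 2, u⟩‖ ^ k / (1 + ((u - t0) * ℓ) ^ 2) ^ M ≤ ‖f ⟨1 / 2, u⟩‖ ^ k / (1 + (v * ℓ) ^ 2) ^ M :=
              div_le_div_of_nonneg_left (by positivity) (by positivity) h4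
          _ ≤ (36 * (4 * C1)) ^ k * Real.exp (-((P + 1 : ℕ) : ℝ) * ℓ) * (2 * (1 + v ^ 2)⁻¹) := h3
          _ ≤ (36 * (4 * C1)) ^ k * Real.exp (-((P + 1 : ℕ) : ℝ) * ℓ) * (2 * (4 * (1 + u ^ 2)⁻¹)) := by gcongr
          _ = _ := by ring
    _ ≤ ∫ u, (36 * (4 * C1)) ^ k * Real.exp (-((P + 1 : ℕ) : ℝ) * ℓ) * (8 * (1 + u ^ 2)⁻¹) := by
        refine setIntegral_le_integral hg (Eventually.of_forall fun u => ?_)
        show (0:ℝ) ≤ _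
        positivity
    _ = _ := by
        rw [integral_const_mul, integral_const_mul, integral_univ_inv_one_add_sq]
        ring

lemma cond_le2 {D : StdL 1} {ℓ t : ℝ} (hℓ : 2 ≤ ℓ) (hq : D.cond (1 / 2) ≤ 3 * Real.exp ℓ)
    (ht : |t| ≤ 2 * Real.exp ℓ) : D.cond (1 / 2 + (t : ℂ) * I) ≤ Real.exp (4 * ℓ) := by
  have h2 := cond_shift D 0 t
  rw [zero_add, Complex.ofReal_zero, zero_mul, add_zero, Nat.cast_one, Real.rpow_one] at h2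
  set e : ℝ := Real.exp ℓ with he
  have he2 : 3 ≤ e := by
    rw [he]
    have := Real.add_one_le_exp ℓ
    linarith
  have h3 : Real.exp (4 * ℓ) = e ^ 4 := by
    rw [he, ← Real.exp_nat_mul]
    norm_num
  rw [h3]
  calc D.cond (1 / 2 + (t : ℂ) * I) ≤ (1 + |t|) * D.cond (1 / 2) := h2
    _ ≤ (1 + 2 * e) * (3 * e) := by
        refine mul_le_mul (by linarith) hq ?_ (by positivity)
        unfold StdL.cond
        positivity
    _ ≤ e ^ 4 := by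
        have h4 : (1 + 2 * e) ≤ e ^ 2 := by nlinarith
        have h5 : 3 * e ≤ e ^ 2 := by nlinarith
        calc (1 + 2 * e) * (3 * e) ≤ e ^ 2 * e ^ 2 := mul_le_mul h4 h5 (by positivity) (by positivity)
          _ = _ := by ring

theorem fin_pt2 (θ A0 : ℝ) (hθ : θ < 1 / 2) {k : ℕ} (hk : 1 ≤ k) (j P : ℕ) {M : ℕ} (hM : 2 * k + 2 + P ≤ M)
    {A γ : ℝ} (B : ℝ) (hA : 0 < A) (hγ : 0 < γ) (hγ1 : γ ≤ 1) :
    ∃ C ℓ0 : ℝ, 0 ≤ C ∧ 2 ≤ ℓ0 ∧ ∀ D : StdL 1, D.IsStandard θ A0 → ∀ ℓ : ℝ, ℓ0 ≤ ℓ →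
      D.cond (1 / 2) ≤ 3 * Real.exp ℓ → ∀ t0 : ℝ, |t0| ≤ Real.exp ℓ → ∀ E : Set ℝ, MeasurableSet E →
      Thick E (A / ℓ) γ →
      ∀ S : Finset ℂ, (∀ z ∈ S, ‖z - ⟨1 / 2, t0⟩‖ ≤ A / ℓ) → ∀ w : ℂ, ‖w - ⟨1 / 2, t0⟩‖ ≤ A / ℓ →
        Real.exp (B * ((∑ z ∈ S, analyticOrderNatAt D.L z : ℕ) : ℝ)) * ‖iteratedDeriv j D.L w‖ ^ k ≤
          C * ℓ ^ (j * k + 1) * (∫ u in E, ‖D.L ⟨1 / 2, u⟩‖ ^ k / (1 + ((u - t0) * ℓ) ^ 2) ^ M) +
            Real.exp (-(P : ℝ) * ℓ) := by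
  obtain ⟨C1, hC1, hfn⟩ := fn_std 1 θ A0 hθ
  obtain ⟨C2, ℓ2, hC2, hℓ2, hder⟩ := std_deriv 1 θ A0 hθ (k := k) (M := M) hk (by omega) (A := A) (κ := 4) B hA
    (by norm_num)
  obtain ⟨C3, ℓ3, hC3, hℓ3, hpt⟩ := std_pt 1 θ A0 hθ (k := k) (M := M + 1) hk (by omega) (A := 7 * A) (B := 0)
    (κ := 4) (by linarith) (by norm_num)
  obtain ⟨C4, hC4, habs⟩ := absorb2 k hk M (A := A) (γ := γ) (C1 := C3) (K := 2 ^ M) hA hγ hγ1 hC3 (by positivity)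
  have hpi := Real.pi_pos
  set Ct : ℝ := (36 * (4 * C1)) ^ k * (8 * Real.pi) with hCt
  have hCt0 : 0 ≤ Ct := by positivity
  set Cj : ℝ := (j.factorial : ℝ) ^ k * C2 with hCj
  have hCj0 : 0 ≤ Cj := by positivity
  have hev : ∀ᶠ ℓ : ℝ in atTop, 2 * (Cj * Ct) * ℓ ^ (j * k + 1) ≤ Real.exp ℓ := by
    have h1 : Tendsto (fun ℓ : ℝ => ℓ ^ (j * k + 1) * Real.exp (-ℓ)) atTop (𝓝 0) :=
      Real.tendsto_pow_mul_exp_neg_atTop_nhds_zero _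
    have h2 : Tendsto (fun ℓ : ℝ => 2 * (Cj * Ct) * (ℓ ^ (j * k + 1) * Real.exp (-ℓ))) atTop (𝓝 (2 * (Cj * Ct) * 0)) :=
      h1.const_mul _
    rw [mul_zero] at h2
    filter_upwards [h2.eventually_le_const one_pos] with ℓ h4
    rw [← mul_assoc, Real.exp_neg, ← div_eq_mul_inv, div_le_one (Real.exp_pos _)] at h4
    exact h4
  obtain ⟨ℓ4, hℓ4⟩ := eventually_atTop.1 hev
  refine ⟨Cj * C4, max (max ℓ2 ℓ3) ℓ4, by positivity,
    hℓ2.trans ((le_max_left _ _).trans (le_max_left _ _)), fun D H ℓ hℓ hq t0 ht0 E hE hth S hS w hw => ?_⟩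
  have hℓ2' : ℓ2 ≤ ℓ := ((le_max_left _ _).trans (le_max_left _ _)).trans hℓ
  have hℓ3' : ℓ3 ≤ ℓ := ((le_max_right _ _).trans (le_max_left _ _)).trans hℓ
  have hℓ4' : ℓ4 ≤ ℓ := (le_max_right _ _).trans hℓ
  have hℓ : 2 ≤ ℓ := hℓ2.trans hℓ2'
  have h6 := hℓ4 ℓ hℓ4'
  have hℓ0 : 0 < ℓ := by linarith
  have hf := hfn D H
  have hQ1 := one_le_cond H.q_pos (1 / 2)
  have hcont := line_cont' H.entire
  have hexp := Real.exp_pos ℓ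
  set W : ℝ → ℝ := fun u => (1 + ((u - t0) * ℓ) ^ 2) ^ M with hW
  have hWc : Continuous W := by rw [hW]; fun_prop
  have hJ := habs D.L ℓ W (Icc (-(2 * Real.exp ℓ)) (2 * Real.exp ℓ)) E (by linarith) measurableSet_Icc hE hth hcont
    hWc (fun u => by positivity) (fun u t => by
      show (1 + ((u - t0) * ℓ) ^ 2) ^ M ≤ 2 ^ M * (1 + ((t - t0) * ℓ) ^ 2) ^ M * (1 + ((u - t) * ℓ) ^ 2) ^ M
      rw [← mul_pow, ← mul_pow]
      refine pow_le_pow_left₀ (by positivity) ?_ _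
      have e : (u - t0) * ℓ = (u - t) * ℓ + (t - t0) * ℓ := by ring
      rw [e]
      nlinarith [sq_nonneg ((u - t) * ℓ - (t - t0) * ℓ), mul_nonneg (sq_nonneg ((u - t) * ℓ)) (sq_nonneg ((t - t0) * ℓ))])
    (int_std hf (by omega) hℓ t0) (fun t => int_std hf (by omega) hℓ t)
    (fun t _ => H.entire.differentiableOn) (fun t ht z hz => by
      have := hpt D H ℓ t hℓ3' (cond_le2 hℓ hq (abs_le.2 ⟨ht.1, ht.2⟩)) ∅ (by simp) z (by rw [mul_div_assoc]; exact hz)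
      simpa using this)
  set IE : ℝ := ∫ u in E, ‖D.L ⟨1 / 2, u⟩‖ ^ k / (1 + ((u - t0) * ℓ) ^ 2) ^ M with hIE
  have hIE0 : 0 ≤ IE := integral_nonneg fun u => by positivity
  have htail := tail_int2 (f := D.L) (k := k) (M := M) (P := P) (t0 := t0) hC1 (by linarith) hq hf hM hℓ ht0
  set tl : ℝ := ∫ u in (Icc (-(2 * Real.exp ℓ)) (2 * Real.exp ℓ))ᶜ, ‖D.L ⟨1 / 2, u⟩‖ ^ k / (1 + ((u - t0) * ℓ) ^ 2) ^ M with htl
  have hsmall : Real.exp (-((P + 1 : ℕ) : ℝ) * ℓ) = Real.exp (-(P : ℝ) * ℓ) * Real.exp (-ℓ) := by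
    rw [← Real.exp_add]
    congr 1
    push_cast
    ring
  have hEP := Real.exp_pos (-(P : ℝ) * ℓ)
  rw [hsmall, ← hCt] at htail
  have hinv : Real.exp (-ℓ) = (Real.exp ℓ)⁻¹ := Real.exp_neg _
  have hJe : JJ D.L k ℓ t0 M = ∫ u, ‖D.L ⟨1 / 2, u⟩‖ ^ k / W u := rfl
  have hJ2 : JJ D.L k ℓ t0 M ≤ C4 * IE + 2 * tl := by
    rw [hJe]
    exact hJ
  have h9 := hder D H ℓ t0 hℓ2' (cond_le2 hℓ hq (by linarith)) S hS j w hw
  refine h9.trans ?_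
  have h10 : ((j.factorial : ℝ) * ℓ ^ j) ^ k * (C2 * (ℓ * JJ D.L k ℓ t0 M)) = Cj * ℓ ^ (j * k + 1) * JJ D.L k ℓ t0 M := by
    rw [hCj, mul_pow, ← pow_mul, pow_succ]
    ring
  rw [h10]
  have hP0 : 0 ≤ ℓ ^ (j * k + 1) := by positivity
  have h11 : Cj * ℓ ^ (j * k + 1) * (2 * tl) ≤ Real.exp (-(P : ℝ) * ℓ) := by
    have h12 : 2 * (Cj * Ct) * ℓ ^ (j * k + 1) * Real.exp (-ℓ) ≤ 1 := by
      rw [hinv, ← div_eq_mul_inv, div_le_one (Real.exp_pos _)]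
      exact h6
    calc Cj * ℓ ^ (j * k + 1) * (2 * tl) ≤
          Cj * ℓ ^ (j * k + 1) * (2 * (Ct * (Real.exp (-(P : ℝ) * ℓ) * Real.exp (-ℓ)))) := by
            refine mul_le_mul_of_nonneg_left (by linarith) (by positivity)
      _ = (2 * (Cj * Ct) * ℓ ^ (j * k + 1) * Real.exp (-ℓ)) * Real.exp (-(P : ℝ) * ℓ) := by ring
      _ ≤ 1 * Real.exp (-(P : ℝ) * ℓ) := mul_le_mul_of_nonneg_right h12 hEP.le
      _ = _ := one_mul _
  calc Cj * ℓ ^ (j * k + 1) * JJ D.L k ℓ t0 M ≤ Cj * ℓ ^ (j * k + 1) * (C4 * IE + 2 * tl) :=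
        mul_le_mul_of_nonneg_left hJ2 (by positivity)
    _ = Cj * C4 * ℓ ^ (j * k + 1) * IE + Cj * ℓ ^ (j * k + 1) * (2 * tl) := by ring
    _ ≤ Cj * C4 * ℓ ^ (j * k + 1) * IE + Real.exp (-(P : ℝ) * ℓ) := by linarith

end Pool.Agent.K4H72.TS
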