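import Mathlib
import Pool.Agent.K4H72.MZ.Zeta

/-!
Zeros of zeta in compact sets are finite in number.
-/

set_option autoImplicit false

open Filter Topology Set Complex

namespace Pool.Agent.K4H72.TS

open Pool.Agent.K4H72.MZ

theorem zeros_fin {K : Set ℂ} (hK : IsCompact K) (h1 : (1:ℂ) ∉ K) : {z : ℂ | z ∈ K ∧ riemannZeta z = 0}.Finite := by
  by_contra hinf
  obtain ⟨z0, hz0, hacc⟩ := (show {z : ℂ | z ∈ K ∧ riemannZeta z = 0}.Infinite from hinf).exists_accPt_of_subset_isCompact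
    hK (fun z hz => hz.1)
  have hd : DifferentiableOn ℂ riemannZeta {1}ᶜ := fun w hw =>
    (differentiableAt_riemannZeta hw).differentiableWithinAt
  have ha : AnalyticOnNhd ℂ riemannZeta {1}ᶜ := hd.analyticOnNhd isOpen_compl_singleton
  have hconn : IsPreconnected ({1}ᶜ : Set ℂ) := by
    apply (isConnected_compl_singleton_of_one_lt_rank ?_ 1).isPreconnected
    rw [Complex.rank_real_complex]
    exact Nat.one_lt_ofNat
  have hmem : z0 ∈ ({1}ᶜ : Set ℂ) := fun h => h1 (by rw [mem_singleton_iff] at h; rwa [← h])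
  have hfr : ∃ᶠ z in 𝓝[≠] z0, riemannZeta z = 0 := by
    rw [accPt_iff_frequently_nhdsNE] at hacc
    exact hacc.mono fun z hz => hz.2
  have := ha.eqOn_zero_of_preconnected_of_frequently_eq_zero hconn hmem hfr
  have h0 : riemannZeta 0 = 0 := this (by simp : (0:ℂ) ∈ ({1}ᶜ : Set ℂ))
  rw [riemannZeta_zero] at h0
  norm_num at h0

theorem ball_fin {t r : ℝ} {s : ℂ} (hs : ‖s - ⟨1 / 2, t⟩‖ + r ≤ 1 / 8) :
    {z : ℂ | ‖z - s‖ ≤ r ∧ riemannZeta z = 0}.Finite := by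
  have h := zeros_fin (K := Metric.closedBall s r) (isCompact_closedBall _ _) (fun h => by
    rw [mem_closedBall_iff_norm] at h
    have h2 : ‖(1:ℂ) - ⟨1 / 2, t⟩‖ ≤ 1 / 8 := by
      calc ‖(1:ℂ) - ⟨1 / 2, t⟩‖ = ‖((1:ℂ) - s) + (s - ⟨1 / 2, t⟩)‖ := by ring_nf
        _ ≤ ‖(1:ℂ) - s‖ + ‖s - ⟨1 / 2, t⟩‖ := norm_add_le _ _
        _ ≤ 1 / 8 := by linarith
    exact (near_facts h2).1 rfl)
  refine h.subset fun z hz => ⟨?_, hz.2⟩
  rw [mem_closedBall_iff_norm]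
  exact hz.1

end Pool.Agent.K4H72.TS
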