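import Mathlib
import Pool.Agent.K4H72.TS.Abs2

/-!
Moments of zeta over thick sets.
-/

set_option autoImplicit false

open MeasureTheory Filter Topology Set Complex
open scoped ENNReal

namespace Pool.Agent.K4H72.TS

open Pool.Agent.K4H72.MZ

lemma dd_move (T u t : ℝ) : dd T u ≤ dd T t + |u - t| := by
  have h0 := dd_nonneg T t
  have h1 : -t ≤ dd T t := (le_max_left _ _).trans (le_max_right _ _)
  have h2 : t - T ≤ dd T t := (le_max_right _ _).trans (le_max_right _ _)
  have h3 := abs_nonneg (u - t)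
  have h4 := neg_abs_le (u - t)
  have h5 := le_abs_self (u - t)
  refine max_le (by linarith) (max_le (by linarith) (by linarith))

lemma dd_cont (T : ℝ) : Continuous (dd T) := by
  unfold dd
  fun_prop

lemma dd_in {T u : ℝ} (h : u ∈ Icc 0 T) : dd T u = 0 := by
  unfold dd
  rw [max_eq_left]
  exact max_le (by linarith [h.1]) (by linarith [h.2])

lemma W_move {T u t ℓ : ℝ} (hℓ : 1 ≤ ℓ) (M : ℕ) :
    (1 + dd T u ^ 2) ^ M ≤ 2 ^ M * (1 + dd T t ^ 2) ^ M * (1 + ((u - t) * ℓ) ^ 2) ^ M := by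
  rw [← mul_pow, ← mul_pow]
  refine pow_le_pow_left₀ (by positivity) ?_ _
  have h1 := dd_move T u t
  have h0 := dd_nonneg T u
  have h2 : dd T u ^ 2 ≤ 2 * dd T t ^ 2 + 2 * (u - t) ^ 2 := by
    have h3 : dd T u ^ 2 ≤ (dd T t + |u - t|) ^ 2 := pow_le_pow_left₀ h0 h1 _
    have h4 := sq_abs (u - t)
    nlinarith [sq_nonneg (dd T t - |u - t|)]
  have h5 : (u - t) ^ 2 ≤ ((u - t) * ℓ) ^ 2 := by
    rw [mul_pow]
    have : 1 ≤ ℓ ^ 2 := one_le_pow₀ hℓ
    nlinarith [sq_nonneg (u - t)]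
  nlinarith [mul_nonneg (sq_nonneg (dd T t)) (sq_nonneg ((u - t) * ℓ))]

/-- the moments over thick sets -/
theorem zeta_thick (k : ℕ) (hk : 1 ≤ k) {A γ ε : ℝ} (hA : 0 < A) (hγ : 0 < γ) (hγ1 : γ ≤ 1) (hε : 0 < ε) :
    ∃ C T0 : ℝ, 0 ≤ C ∧ ∀ T : ℝ, T0 ≤ T → ∀ E : Set ℝ, MeasurableSet E → Thick E (A / Real.log T) γ →
      ∫ u in (0:ℝ)..T, ‖riemannZeta ⟨1 / 2, u⟩‖ ^ k ≤
        C * ((∫ u in E ∩ Icc 0 (T + T ^ ε), ‖riemannZeta ⟨1 / 2, u⟩‖ ^ k) + 1) := by
  obtain ⟨C0, N, hC0, hf⟩ := fn_zeta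
  set En : ℕ := ⌈1 / ε⌉₊ with hEn
  have hEn1 : 1 / ε ≤ (En : ℝ) := Nat.le_ceil _
  set M : ℕ := (En + 1) * (N * k) + 1 with hM
  have hM1 : N * k + 1 ≤ M + 1 := by
    rw [hM]
    nlinarith [Nat.zero_le (En * (N * k))]
  obtain ⟨C1, ℓ1, hC1, hℓ1, hpt⟩ := zeta_pt hf (k := k) (M := M + 1) hk hM1 (A := 7 * A) (B := 0) (by linarith)
  obtain ⟨C2, hC2, habs⟩ := absorb2 k hk M (A := A) (γ := γ) (C1 := C1) (K := 2 ^ M) hA hγ hγ1 hC1 (by positivity)
  have hpi := Real.pi_pos
  set Cst : ℝ := (12 * C0) ^ k * 3 ^ (N * k) * 2 ^ ((En + 1) * (N * k)) with hCst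
  have hCst0 : 0 ≤ Cst := by positivity
  refine ⟨C2 + C2 * (2 * Real.pi * Cst) + 4 * Real.pi * Cst, Real.exp (max ℓ1 (64 * A)), by positivity,
    fun T hT E hE hth => ?_⟩
  have hT0 : 0 < T := (Real.exp_pos _).trans_le hT
  have hT1 : 1 ≤ T := (Real.one_le_exp (by linarith [le_max_left ℓ1 (64 * A)])).trans hT
  set ℓ : ℝ := Real.log T with hℓ
  have hℓℓ : max ℓ1 (64 * A) ≤ ℓ := by
    rw [hℓ, Real.le_log_iff_exp_le hT0]
    exact hT
  have hℓ1' : ℓ1 ≤ ℓ := (le_max_left _ _).trans hℓℓ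
  have hℓ2 : 2 ≤ ℓ := hℓ1.trans hℓ1'
  have hℓA : 64 * A ≤ ℓ := (le_max_right _ _).trans hℓℓ
  have hℓ0 : 0 < ℓ := by linarith
  set W : ℝ → ℝ := fun u => (1 + dd T u ^ 2) ^ M with hW
  have hW0 : ∀ u, 0 < W u := fun u => by positivity
  have hW1 : ∀ u, 1 ≤ W u := fun u => one_le_pow₀ (by nlinarith [sq_nonneg (dd T u)])
  have hWc : Continuous W := by
    have := dd_cont T
    rw [hW]
    fun_prop
  set a : ℝ → ℝ := fun u => ‖riemannZeta ⟨1 / 2, u⟩‖ ^ k with ha
  have ha0 : ∀ u, 0 ≤ a u := fun u => by positivity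
  have hac : Continuous a := zline_cont.norm.pow k
  set T2 : ℝ := T + T ^ ε with hT2
  have hTε : 1 ≤ T ^ ε := Real.one_le_rpow hT1 hε.le
  have hT20 : 0 ≤ T2 := by linarith
  -- tails
  have htl : ∀ u y : ℝ, 0 ≤ y → 1 + |u| ≤ 3 * (1 + y) ^ (En + 1) → a u / (1 + y ^ 2) ^ M ≤ Cst * (1 + y ^ 2)⁻¹ := by
    intro u y hy h
    have h1 := tail hf hC0 k En (u := u) hy h
    rw [mul_div_assoc, mul_assoc Real.pi] at h1
    exact le_of_mul_le_mul_left h1 hpi
  have hneg : ∀ u, u < 0 → a u / W u ≤ Cst * (1 + u ^ 2)⁻¹ := by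
    intro u hu
    have e : dd T u = -u := by
      unfold dd
      rw [max_eq_left (a := -u) (by linarith), max_eq_right (by linarith)]
    have := htl u (-u) (by linarith) (by
      rw [abs_of_neg hu]
      have : 1 + -u ≤ (1 + -u) ^ (En + 1) := le_self_pow₀ (by linarith) (by omega)
      nlinarith)
    rw [hW]
    simp only
    rw [e]
    rw [neg_sq] at this ⊢
    exact this
  have hbig : ∀ u, T2 < u → a u / W u ≤ Cst * (1 + (u - T) ^ 2)⁻¹ := by
    intro u hu
    have hv : 0 ≤ u - T := by linarith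
    have e : dd T u = u - T := by
      unfold dd
      rw [max_eq_right (a := -u) (by linarith), max_eq_right hv]
    have h4 : T ≤ (1 + (u - T)) ^ En := by
      have h5 : T ^ ε ≤ 1 + (u - T) := by linarith
      calc T = (T ^ ε) ^ (1 / ε) := by
            rw [← Real.rpow_mul hT0.le, mul_one_div_cancel hε.ne', Real.rpow_one]
        _ ≤ (1 + (u - T)) ^ (1 / ε) := Real.rpow_le_rpow (by positivity) h5 (by positivity)
        _ ≤ (1 + (u - T)) ^ (En : ℝ) := Real.rpow_le_rpow_of_exponent_le (by linarith) hEn1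
        _ = _ := Real.rpow_natCast _ _
    have := htl u (u - T) hv (by
      rw [abs_of_nonneg (by linarith)]
      have h6 : (1 + (u - T)) ^ En ≤ (1 + (u - T)) ^ (En + 1) := pow_le_pow_right₀ (by linarith) (by omega)
      have h7 : 1 + (u - T) ≤ (1 + (u - T)) ^ (En + 1) := le_self_pow₀ (by linarith) (by omega)
      linarith)
    rw [hW]
    simp only
    rw [e]
    exact this
  have hbig2 : ∀ u, 2 * T < u → a u / W u ≤ Cst * (1 + (u - T) ^ 2)⁻¹ := by
    intro u hu
    have hv : 0 ≤ u - T := by linarith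
    have e : dd T u = u - T := by
      unfold dd
      rw [max_eq_right (a := -u) (by linarith), max_eq_right hv]
    have := htl u (u - T) hv (by
      rw [abs_of_nonneg (by linarith)]
      have h7 : 1 + (u - T) ≤ (1 + (u - T)) ^ (En + 1) := le_self_pow₀ (by linarith) (by omega)
      linarith)
    rw [hW]
    simp only
    rw [e]
    exact this
  set g : ℝ → ℝ := fun u => Cst * (1 + u ^ 2)⁻¹ + Cst * (1 + (u - T) ^ 2)⁻¹ with hg
  have hg0 : ∀ u, 0 ≤ g u := fun u => by positivity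
  have hgi : Integrable g := (integrable_inv_one_add_sq.const_mul _).add
    ((integrable_inv_one_add_sq.comp_sub_right T).const_mul _)
  have hgv : ∫ u, g u = 2 * Real.pi * Cst := by
    rw [hg, integral_add (integrable_inv_one_add_sq.const_mul _)
      ((integrable_inv_one_add_sq.comp_sub_right T).const_mul _), integral_const_mul, integral_const_mul,
      integral_univ_inv_one_add_sq, integral_sub_right_eq_self (fun u : ℝ => (1 + u ^ 2)⁻¹) T,
      integral_univ_inv_one_add_sq]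
    ring
  have hout : ∀ u, u ∉ Icc 0 T2 → a u / W u ≤ g u := by
    intro u hu
    rw [mem_Icc, not_and_or] at hu
    push Not at hu
    have h1 : 0 ≤ Cst * (1 + u ^ 2)⁻¹ := by positivity
    have h2 : 0 ≤ Cst * (1 + (u - T) ^ 2)⁻¹ := by positivity
    show _ ≤ Cst * (1 + u ^ 2)⁻¹ + Cst * (1 + (u - T) ^ 2)⁻¹
    rcases hu with hu | hu
    · linarith [hneg u hu]
    · linarith [hbig u hu]
  have hout2 : ∀ u, u ∉ Icc 0 (2 * T) → a u / W u ≤ g u := by
    intro u hu
    rw [mem_Icc, not_and_or] at hu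
    push Not at hu
    have h1 : 0 ≤ Cst * (1 + u ^ 2)⁻¹ := by positivity
    have h2 : 0 ≤ Cst * (1 + (u - T) ^ 2)⁻¹ := by positivity
    show _ ≤ Cst * (1 + u ^ 2)⁻¹ + Cst * (1 + (u - T) ^ 2)⁻¹
    rcases hu with hu | hu
    · linarith [hneg u hu]
    · linarith [hbig2 u hu]
  have hall : ∀ u, a u / W u ≤ (Icc 0 T2).indicator a u + g u := by
    intro u
    by_cases hu : u ∈ Icc 0 T2
    · rw [indicator_of_mem hu]
      have : a u / W u ≤ a u := div_le_self (ha0 u) (hW1 u)
      linarith [hg0 u]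
    · rw [indicator_of_notMem hu, zero_add]
      exact hout u hu
  have hai : Integrable ((Icc 0 T2).indicator a) := by
    rw [integrable_indicator_iff measurableSet_Icc]
    exact hac.continuousOn.integrableOn_compact isCompact_Icc
  have hint0 : Integrable fun u => a u / W u := by
    refine Integrable.mono' (hai.add hgi) ?_ (Eventually.of_forall fun u => ?_)
    · exact (hac.div hWc fun u => (hW0 u).ne').aestronglyMeasurable
    · rw [Real.norm_of_nonneg (div_nonneg (ha0 u) (hW0 u).le)]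
      exact hall u
  have hAℓ : 8 * (A / ℓ) ≤ 1 / 8 := by
    rw [mul_div_assoc', div_le_iff₀ hℓ0]
    linarith
  have key := habs riemannZeta ℓ W (Icc 0 (2 * T)) E (by linarith) measurableSet_Icc hE hth zline_cont hWc hW0
    (fun u t => W_move (by linarith) M) hint0 (fun t => zeta_int hf hM1 hℓ2)
    (fun t _ z hz => by
      rw [mem_ball_iff_norm] at hz
      exact (differentiableAt_riemannZeta (near_facts (hz.le.trans hAℓ)).1).differentiableWithinAt)
    (fun t ht z hz => by
      have h6 : |t| + 4 ≤ Real.exp (ℓ + 2) := by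
        rw [Real.exp_add, hℓ, Real.exp_log hT0, abs_of_nonneg ht.1]
        have h2 : (6:ℝ) ≤ Real.exp 2 := by
          have h3 := Real.exp_one_gt_d9
          have h4 : Real.exp 2 = Real.exp 1 * Real.exp 1 := by
            rw [← Real.exp_add]; norm_num
          rw [h4]
          nlinarith
        nlinarith [ht.2]
      have := hpt ℓ t hℓ1' h6 ∅ (by simp) z (by rw [mul_div_assoc]; exact hz)
      simpa using this)
  have htail : ∫ u in (Icc 0 (2 * T))ᶜ, a u / W u ≤ 2 * Real.pi * Cst := by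
    calc ∫ u in (Icc 0 (2 * T))ᶜ, a u / W u ≤ ∫ u in (Icc 0 (2 * T))ᶜ, g u :=
          setIntegral_mono_on hint0.integrableOn hgi.integrableOn measurableSet_Icc.compl fun u hu => hout2 u hu
      _ ≤ ∫ u, g u := setIntegral_le_integral hgi (Eventually.of_forall hg0)
      _ = _ := hgv
  set ME : ℝ := ∫ u in E ∩ Icc 0 T2, a u with hME
  have hME0 : 0 ≤ ME := integral_nonneg fun u => ha0 u
  have hIE : ∫ u in E, a u / W u ≤ ME + 2 * Real.pi * Cst := by
    calc ∫ u in E, a u / W u ≤ ∫ u in E, ((Icc 0 T2).indicator a u + g u) :=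
          setIntegral_mono_on hint0.integrableOn (hai.add hgi).integrableOn hE fun u _ => hall u
      _ = (∫ u in E, (Icc 0 T2).indicator a u) + ∫ u in E, g u :=
          integral_add hai.integrableOn hgi.integrableOn
      _ ≤ ME + 2 * Real.pi * Cst := by
          refine add_le_add (le_of_eq ?_) ?_
          · rw [integral_indicator measurableSet_Icc, Measure.restrict_restrict measurableSet_Icc, inter_comm]
          · rw [← hgv]
            exact setIntegral_le_integral hgi (Eventually.of_forall hg0)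
  have hlow : ∫ u in (0:ℝ)..T, a u ≤ ∫ u, a u / W u := by
    rw [intervalIntegral.integral_of_le hT0.le, ← integral_Icc_eq_integral_Ioc]
    calc ∫ u in Icc 0 T, a u = ∫ u in Icc 0 T, a u / W u := by
          refine setIntegral_congr_fun measurableSet_Icc fun u hu => ?_
          show a u = a u / (1 + dd T u ^ 2) ^ M
          rw [dd_in hu]
          simp
      _ ≤ _ := setIntegral_le_integral hint0 (Eventually.of_forall fun u => div_nonneg (ha0 u) (hW0 u).le)
  calc ∫ u in (0:ℝ)..T, a u ≤ ∫ u, a u / W u := hlow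
    _ ≤ C2 * (∫ u in E, a u / W u) + 2 * ∫ u in (Icc 0 (2 * T))ᶜ, a u / W u := key
    _ ≤ C2 * (ME + 2 * Real.pi * Cst) + 2 * (2 * Real.pi * Cst) := by
        refine add_le_add (mul_le_mul_of_nonneg_left hIE hC2) (by linarith)
    _ ≤ (C2 + C2 * (2 * Real.pi * Cst) + 4 * Real.pi * Cst) * (ME + 1) := by
        have h1 : 0 ≤ C2 * (2 * Real.pi * Cst) * ME := by positivity
        have h2 : 0 ≤ 4 * Real.pi * Cst * ME := by positivity
        nlinarith

/-- thickness at a slightly larger height -/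
lemma thick_conv {E : Set ℝ} {A γ T T' : ℝ} (hA : 0 < A) (hγ : 0 < γ) (hT : 1 < T) (h1 : T ≤ T') (h2 : T' ≤ T ^ 2)
    (h : Thick E (A / Real.log T) γ) : Thick E (2 * A / Real.log T') (γ / 2) := by
  have hℓ : 0 < Real.log T := Real.log_pos hT
  have hℓ' : Real.log T ≤ Real.log T' := Real.log_le_log (by linarith) h1
  have hℓ'' : Real.log T' ≤ 2 * Real.log T := by
    have := Real.log_le_log (by linarith) h2
    rwa [Real.log_pow, Nat.cast_ofNat] at this
  have hℓ0 : 0 < Real.log T' := by linarith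
  intro u
  have h3 : A / Real.log T ≤ 2 * A / Real.log T' := by
    rw [div_le_div_iff₀ hℓ hℓ0]
    nlinarith
  calc ENNReal.ofReal (γ / 2 * (2 * A / Real.log T')) ≤ ENNReal.ofReal (γ * (A / Real.log T)) := by
        apply ENNReal.ofReal_le_ofReal
        have e : γ / 2 * (2 * A / Real.log T') = γ * (A / Real.log T') := by ring
        rw [e]
        exact mul_le_mul_of_nonneg_left (div_le_div_of_nonneg_left hA.le hℓ hℓ') hγ.le
    _ ≤ volume (E ∩ Icc u (u + A / Real.log T)) := h u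
    _ ≤ _ := measure_mono (inter_subset_inter_right _ (Icc_subset_Icc_right (by linarith)))

end Pool.Agent.K4H72.TS
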