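import Mathlib
import Pool.Agent.K4H72.TS.Zth

/-!
Moments of zeta over thick sets, in windows.
-/

set_option autoImplicit false

open MeasureTheory Filter Topology Set Complex
open scoped ENNReal

namespace Pool.Agent.K4H72.TS

open Pool.Agent.K4H72.MZ

/-- distance to the interval `[U, V]` -/
noncomputable def de (U V u : ℝ) : ℝ := max 0 (max (U - u) (u - V))

lemma de_nonneg (U V u : ℝ) : 0 ≤ de U V u := le_max_left _ _

lemma de_move (U V u t : ℝ) : de U V u ≤ de U V t + |u - t| := by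
  have h0 := de_nonneg U V t
  have h1 : U - t ≤ de U V t := (le_max_left _ _).trans (le_max_right _ _)
  have h2 : t - V ≤ de U V t := (le_max_right _ _).trans (le_max_right _ _)
  have h3 := abs_nonneg (u - t)
  have h4 := neg_abs_le (u - t)
  have h5 := le_abs_self (u - t)
  refine max_le (by linarith) (max_le (by linarith) (by linarith))

lemma de_cont (U V : ℝ) : Continuous (de U V) := by
  unfold de
  fun_prop

lemma de_in {U V u : ℝ} (h : u ∈ Icc U V) : de U V u = 0 := by
  unfold de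
  rw [max_eq_left]
  exact max_le (by linarith [h.1]) (by linarith [h.2])

lemma de_in1 {U V t : ℝ} (hUV : U ≤ V) (h : t ∈ Icc U (V + 1)) : de U V t ≤ 1 :=
  max_le (by norm_num) (max_le (by linarith [h.1]) (by linarith [h.2]))

lemma We_move {U V u t ℓ : ℝ} (hℓ : 1 ≤ ℓ) (M : ℕ) :
    (1 + de U V u ^ 2) ^ M ≤ 2 ^ M * (1 + de U V t ^ 2) ^ M * (1 + ((u - t) * ℓ) ^ 2) ^ M := by
  rw [← mul_pow, ← mul_pow]
  refine pow_le_pow_left₀ (by positivity) ?_ _
  have h1 := de_move U V u t
  have h0 := de_nonneg U V u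
  have h2 : de U V u ^ 2 ≤ 2 * de U V t ^ 2 + 2 * (u - t) ^ 2 := by
    have h3 : de U V u ^ 2 ≤ (de U V t + |u - t|) ^ 2 := pow_le_pow_left₀ h0 h1 _
    have h4 := sq_abs (u - t)
    nlinarith [sq_nonneg (de U V t - |u - t|)]
  have h5 : (u - t) ^ 2 ≤ ((u - t) * ℓ) ^ 2 := by
    rw [mul_pow]
    have : 1 ≤ ℓ ^ 2 := one_le_pow₀ hℓ
    nlinarith [sq_nonneg (u - t)]
  nlinarith [mul_nonneg (sq_nonneg (de U V t)) (sq_nonneg ((u - t) * ℓ))]

/-- the integral of the local means over a window -/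
lemma mean_loc {C0 : ℝ} {N : ℕ} (hf : Fn FZ N C0) {k M : ℕ} (hM1 : N * k + 1 ≤ M + 1) {ℓ U V : ℝ}
    (hℓ : 2 ≤ ℓ) (hUV : U ≤ V)
    (hint : Integrable fun u => ‖riemannZeta ⟨1 / 2, u⟩‖ ^ k / (1 + de U V u ^ 2) ^ M) :
    ∫⁻ t in Icc U (V + 1), ENNReal.ofReal (ℓ * JJ riemannZeta k ℓ t (M + 1)) ≤
      ENNReal.ofReal (Real.pi * 4 ^ M * ∫ u, ‖riemannZeta ⟨1 / 2, u⟩‖ ^ k / (1 + de U V u ^ 2) ^ M) := by
  have hℓ0 : 0 < ℓ := by linarith
  have hpi := Real.pi_pos
  set a : ℝ → ℝ := fun u => ‖riemannZeta ⟨1 / 2, u⟩‖ ^ k with ha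
  have ha0 : ∀ u, 0 ≤ a u := fun u => by positivity
  have hac : Continuous a := zline_cont.norm.pow k
  have h1 : ∀ t, ENNReal.ofReal (ℓ * JJ riemannZeta k ℓ t (M + 1)) =
      ∫⁻ u, ENNReal.ofReal (ℓ * (a u / (1 + ((u - t) * ℓ) ^ 2) ^ (M + 1))) := by
    intro t
    unfold JJ
    rw [← integral_const_mul, ofReal_integral_eq_lintegral_ofReal]
    · exact (zeta_int hf hM1 hℓ).const_mul _
    · exact Eventually.of_forall fun u => by positivity
  have hmeas : Measurable (Function.uncurry fun t u : ℝ =>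
      ENNReal.ofReal (ℓ * (a u / (1 + ((u - t) * ℓ) ^ 2) ^ (M + 1)))) := by
    apply Measurable.ennreal_ofReal
    apply Continuous.measurable
    refine continuous_const.mul ((hac.comp continuous_snd).div (by fun_prop) fun p => ?_)
    positivity
  rw [lintegral_congr h1, lintegral_lintegral_swap hmeas.aemeasurable]
  calc ∫⁻ u, ∫⁻ t in Icc U (V + 1), ENNReal.ofReal (ℓ * (a u / (1 + ((u - t) * ℓ) ^ 2) ^ (M + 1)))
      ≤ ∫⁻ u, ENNReal.ofReal (Real.pi * 4 ^ M * (a u / (1 + de U V u ^ 2) ^ M)) := by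
        refine lintegral_mono fun u => ?_
        obtain ⟨h2, h3⟩ := kint hℓ0 u
        calc ∫⁻ t in Icc U (V + 1), ENNReal.ofReal (ℓ * (a u / (1 + ((u - t) * ℓ) ^ 2) ^ (M + 1)))
            ≤ ∫⁻ t in Icc U (V + 1), ENNReal.ofReal (ℓ * (4 ^ M * (a u / (1 + de U V u ^ 2) ^ M)) *
                (1 + ((u - t) * ℓ) ^ 2)⁻¹) := by
              refine setLIntegral_mono' measurableSet_Icc fun t ht => ENNReal.ofReal_le_ofReal ?_
              set X : ℝ := 1 + ((u - t) * ℓ) ^ 2 with hX
              have hX0 : 0 < X := by positivity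
              have hd0 : 0 < (1 + de U V u ^ 2) ^ M := by positivity
              have h4 : (1 + de U V u ^ 2) ^ M ≤ 4 ^ M * X ^ M := by
                have h5 := We_move (U := U) (V := V) (u := u) (t := t) (by linarith : (1:ℝ) ≤ ℓ) M
                have h6 : (1 + de U V t ^ 2) ^ M ≤ 2 ^ M := by
                  refine pow_le_pow_left₀ (by positivity) ?_ _
                  have h7 := de_in1 hUV ht
                  have h8 := de_nonneg U V t
                  nlinarith
                calc (1 + de U V u ^ 2) ^ M ≤ 2 ^ M * (1 + de U V t ^ 2) ^ M * X ^ M := h5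
                  _ ≤ 2 ^ M * 2 ^ M * X ^ M := by gcongr
                  _ = 4 ^ M * X ^ M := by rw [← mul_pow]; norm_num
              have h9 : a u / X ^ (M + 1) ≤ 4 ^ M * (a u / (1 + de U V u ^ 2) ^ M) * X⁻¹ := by
                rw [pow_succ, ← div_div, ← div_eq_mul_inv]
                refine div_le_div_of_nonneg_right ?_ hX0.le
                rw [mul_div_assoc', div_le_div_iff₀ (by positivity) hd0]
                have := mul_le_mul_of_nonneg_left h4 (ha0 u)
                linarith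
              calc ℓ * (a u / X ^ (M + 1)) ≤ ℓ * (4 ^ M * (a u / (1 + de U V u ^ 2) ^ M) * X⁻¹) :=
                    mul_le_mul_of_nonneg_left h9 hℓ0.le
                _ = _ := by ring
          _ ≤ ∫⁻ t, ENNReal.ofReal (ℓ * (4 ^ M * (a u / (1 + de U V u ^ 2) ^ M)) *
                (1 + ((u - t) * ℓ) ^ 2)⁻¹) := setLIntegral_le_lintegral _ _
          _ = ENNReal.ofReal (∫ t, ℓ * (4 ^ M * (a u / (1 + de U V u ^ 2) ^ M)) *
                (1 + ((u - t) * ℓ) ^ 2)⁻¹) := by
              rw [ofReal_integral_eq_lintegral_ofReal (h2.const_mul _)]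
              exact Eventually.of_forall fun t => by
                have := ha0 u
                positivity
          _ = _ := by
              rw [integral_const_mul, h3]
              congr 1
              field_simp
    _ = ENNReal.ofReal (∫ u, Real.pi * 4 ^ M * (a u / (1 + de U V u ^ 2) ^ M)) := by
        rw [ofReal_integral_eq_lintegral_ofReal (hint.const_mul _)]
        exact Eventually.of_forall fun u => by
          have := ha0 u
          show (0:ℝ) ≤ _
          positivity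
    _ = _ := by rw [integral_const_mul]

/-- the weighted moment over a window is bounded by the moment over a thick set -/
theorem zeta_loc (k : ℕ) (hk : 1 ≤ k) {A γ ε : ℝ} (hA : 0 < A) (hγ : 0 < γ) (hγ1 : γ ≤ 1) (hε : 0 < ε) :
    ∃ (C0 C T0 : ℝ) (N M : ℕ), Fn FZ N C0 ∧ N * k + 1 ≤ M + 1 ∧ 0 ≤ C ∧ ∀ T : ℝ, T0 ≤ T → ∀ U V : ℝ,
      0 ≤ U → U ≤ V → V ≤ T → ∀ E : Set ℝ, MeasurableSet E → Thick E (A / Real.log T) γ →
      (Integrable fun u => ‖riemannZeta ⟨1 / 2, u⟩‖ ^ k / (1 + de U V u ^ 2) ^ M) ∧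
      ∫ u, ‖riemannZeta ⟨1 / 2, u⟩‖ ^ k / (1 + de U V u ^ 2) ^ M ≤
        C * ((∫ u in E ∩ Icc (U - T ^ ε) (V + T ^ ε), ‖riemannZeta ⟨1 / 2, u⟩‖ ^ k) + 1) := by
  obtain ⟨C0, N, hC0, hf⟩ := fn_zeta
  set En : ℕ := ⌈1 / ε⌉₊ with hEn
  have hEn1 : 1 / ε ≤ (En : ℝ) := Nat.le_ceil _
  set M : ℕ := (En + 1) * (N * k) + 1 with hM
  have hM1 : N * k + 1 ≤ M + 1 := by
    rw [hM]
    nlinarith [Nat.zero_le (En * (N * k))]
  obtain ⟨C1, ℓ1, hC1, hℓ1, hpt⟩ := zeta_pt hf (k := k) (M := M + 1) hk hM1 (A := 7 * A) (B := 0) (by linarith)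
  obtain ⟨C2, hC2, habs⟩ := absorb2 k hk M (A := A) (γ := γ) (C1 := C1) (K := 2 ^ M) hA hγ hγ1 hC1 (by positivity)
  have hpi := Real.pi_pos
  set Cst : ℝ := (12 * C0) ^ k * 3 ^ (N * k) * 2 ^ ((En + 1) * (N * k)) with hCst
  have hCst0 : 0 ≤ Cst := by positivity
  refine ⟨C0, C2 + C2 * (2 * Real.pi * Cst) + 4 * Real.pi * Cst, Real.exp (max ℓ1 (64 * A)), N, M, hf, hM1,
    by positivity, fun T hT U V hU hUV hVT E hE hth => ?_⟩
  have hT0 : 0 < T := (Real.exp_pos _).trans_le hT
  have hT1 : 1 ≤ T := (Real.one_le_exp (by linarith [le_max_left ℓ1 (64 * A)])).trans hT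
  set ℓ : ℝ := Real.log T with hℓ
  have hℓℓ : max ℓ1 (64 * A) ≤ ℓ := by
    rw [hℓ, Real.le_log_iff_exp_le hT0]
    exact hT
  have hℓ1' : ℓ1 ≤ ℓ := (le_max_left _ _).trans hℓℓ
  have hℓ2 : 2 ≤ ℓ := hℓ1.trans hℓ1'
  have hℓA : 64 * A ≤ ℓ := (le_max_right _ _).trans hℓℓ
  have hℓ0 : 0 < ℓ := by linarith
  set W : ℝ → ℝ := fun u => (1 + de U V u ^ 2) ^ M with hW
  have hW0 : ∀ u, 0 < W u := fun u => by positivity
  have hW1 : ∀ u, 1 ≤ W u := fun u => one_le_pow₀ (by nlinarith [sq_nonneg (de U V u)])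
  have hWc : Continuous W := by
    have := de_cont U V
    rw [hW]
    fun_prop
  set a : ℝ → ℝ := fun u => ‖riemannZeta ⟨1 / 2, u⟩‖ ^ k with ha
  have ha0 : ∀ u, 0 ≤ a u := fun u => by positivity
  have hac : Continuous a := zline_cont.norm.pow k
  have hTε : 1 ≤ T ^ ε := Real.one_le_rpow hT1 hε.le
  set Q : Set ℝ := Icc (U - T ^ ε) (V + T ^ ε) with hQ
  -- tails
  have htl : ∀ u y : ℝ, 0 ≤ y → 1 + |u| ≤ 3 * (1 + y) ^ (En + 1) → a u / (1 + y ^ 2) ^ M ≤ Cst * (1 + y ^ 2)⁻¹ := by
    intro u y hy h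
    have h1 := tail hf hC0 k En (u := u) hy h
    rw [mul_div_assoc, mul_assoc Real.pi] at h1
    exact le_of_mul_le_mul_left h1 hpi
  have hTE : ∀ y : ℝ, T ^ ε ≤ y → T ≤ (1 + y) ^ En := by
    intro y hy
    calc T = (T ^ ε) ^ (1 / ε) := by
          rw [← Real.rpow_mul hT0.le, mul_one_div_cancel hε.ne', Real.rpow_one]
      _ ≤ (1 + y) ^ (1 / ε) := Real.rpow_le_rpow (by positivity) (by linarith) (by positivity)
      _ ≤ (1 + y) ^ (En : ℝ) := Real.rpow_le_rpow_of_exponent_le (by linarith) hEn1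
      _ = _ := Real.rpow_natCast _ _
  have hpw : ∀ y : ℝ, 0 ≤ y → 1 + y ≤ (1 + y) ^ (En + 1) := fun y hy => le_self_pow₀ (by linarith) (by omega)
  have hpw2 : ∀ y : ℝ, 0 ≤ y → (1 + y) ^ En ≤ (1 + y) ^ (En + 1) := fun y hy =>
    pow_le_pow_right₀ (by linarith) (by omega)
  have hleft : ∀ u, u < U → (T ^ ε ≤ U - u ∨ u ≤ -T) → a u / W u ≤ Cst * (1 + (u - U) ^ 2)⁻¹ := by
    intro u hu hor
    have hy : 0 ≤ U - u := by linarith
    have e : de U V u = U - u := by
      unfold de
      rw [max_eq_left (a := U - u) (by linarith), max_eq_right hy]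
    have := htl u (U - u) hy (by
      have h7 := hpw _ hy
      have h8 := hpw2 _ hy
      have h9 : |u| ≤ U + (U - u) := by
        rw [abs_le]; constructor <;> linarith
      rcases hor with h | h
      · have := hTE _ h
        linarith
      · have h10 : |u| ≤ U - u := by
          rw [abs_le]; constructor <;> linarith
        have h11 : (0:ℝ) ≤ (1 + (U - u)) ^ (En + 1) := by positivity
        linarith)
    rw [hW]
    simp only
    rw [e]
    have e2 : (u - U) ^ 2 = (U - u) ^ 2 := by ring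
    rw [e2]
    exact this
  have hright : ∀ u, V < u → (T ^ ε ≤ u - V ∨ 2 * T ≤ u) → a u / W u ≤ Cst * (1 + (u - V) ^ 2)⁻¹ := by
    intro u hu hor
    have hy : 0 ≤ u - V := by linarith
    have e : de U V u = u - V := by
      unfold de
      rw [max_eq_right (a := U - u) (by linarith), max_eq_right hy]
    have := htl u (u - V) hy (by
      have h7 := hpw _ hy
      have h8 := hpw2 _ hy
      have h9 : |u| = u := abs_of_nonneg (by linarith)
      rw [h9]
      rcases hor with h | h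
      · have := hTE _ h
        linarith
      · linarith)
    rw [hW]
    simp only
    rw [e]
    exact this
  set g : ℝ → ℝ := fun u => Cst * (1 + (u - U) ^ 2)⁻¹ + Cst * (1 + (u - V) ^ 2)⁻¹ with hg
  have hg0 : ∀ u, 0 ≤ g u := fun u => by positivity
  have hgi : Integrable g := ((integrable_inv_one_add_sq.comp_sub_right U).const_mul _).add
    ((integrable_inv_one_add_sq.comp_sub_right V).const_mul _)
  have hgv : ∫ u, g u = 2 * Real.pi * Cst := by
    rw [hg, integral_add ((integrable_inv_one_add_sq.comp_sub_right U).const_mul _)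
      ((integrable_inv_one_add_sq.comp_sub_right V).const_mul _), integral_const_mul, integral_const_mul,
      integral_sub_right_eq_self (fun u : ℝ => (1 + u ^ 2)⁻¹) U,
      integral_sub_right_eq_self (fun u : ℝ => (1 + u ^ 2)⁻¹) V, integral_univ_inv_one_add_sq]
    ring
  have hout : ∀ u, u ∉ Q → a u / W u ≤ g u := by
    intro u hu
    rw [hQ, mem_Icc, not_and_or] at hu
    push Not at hu
    have h1 : 0 ≤ Cst * (1 + (u - U) ^ 2)⁻¹ := by positivity
    have h2 : 0 ≤ Cst * (1 + (u - V) ^ 2)⁻¹ := by positivity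
    show _ ≤ Cst * (1 + (u - U) ^ 2)⁻¹ + Cst * (1 + (u - V) ^ 2)⁻¹
    rcases hu with hu | hu
    · linarith [hleft u (by linarith) (Or.inl (by linarith))]
    · linarith [hright u (by linarith) (Or.inl (by linarith))]
  have hout2 : ∀ u, u ∉ Icc (-T) (2 * T) → a u / W u ≤ g u := by
    intro u hu
    rw [mem_Icc, not_and_or] at hu
    push Not at hu
    have h1 : 0 ≤ Cst * (1 + (u - U) ^ 2)⁻¹ := by positivity
    have h2 : 0 ≤ Cst * (1 + (u - V) ^ 2)⁻¹ := by positivity
    show _ ≤ Cst * (1 + (u - U) ^ 2)⁻¹ + Cst * (1 + (u - V) ^ 2)⁻¹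
    rcases hu with hu | hu
    · linarith [hleft u (by linarith) (Or.inr hu.le)]
    · linarith [hright u (by linarith) (Or.inr hu.le)]
  have hall : ∀ u, a u / W u ≤ Q.indicator a u + g u := by
    intro u
    by_cases hu : u ∈ Q
    · rw [indicator_of_mem hu]
      have : a u / W u ≤ a u := div_le_self (ha0 u) (hW1 u)
      linarith [hg0 u]
    · rw [indicator_of_notMem hu, zero_add]
      exact hout u hu
  have hai : Integrable (Q.indicator a) := by
    rw [hQ, integrable_indicator_iff measurableSet_Icc]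
    exact hac.continuousOn.integrableOn_compact isCompact_Icc
  have hint0 : Integrable fun u => a u / W u := by
    refine Integrable.mono' (hai.add hgi) ?_ (Eventually.of_forall fun u => ?_)
    · exact (hac.div hWc fun u => (hW0 u).ne').aestronglyMeasurable
    · rw [Real.norm_of_nonneg (div_nonneg (ha0 u) (hW0 u).le)]
      exact hall u
  refine ⟨hint0, ?_⟩
  have hAℓ : 8 * (A / ℓ) ≤ 1 / 8 := by
    rw [mul_div_assoc', div_le_iff₀ hℓ0]
    linarith
  have key := habs riemannZeta ℓ W (Icc (-T) (2 * T)) E (by linarith) measurableSet_Icc hE hth zline_cont hWc hW0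
    (fun u t => We_move (by linarith) M) hint0 (fun t => zeta_int hf hM1 hℓ2)
    (fun t _ z hz => by
      rw [mem_ball_iff_norm] at hz
      exact (differentiableAt_riemannZeta (near_facts (hz.le.trans hAℓ)).1).differentiableWithinAt)
    (fun t ht z hz => by
      have h6 : |t| + 4 ≤ Real.exp (ℓ + 2) := by
        rw [Real.exp_add, hℓ, Real.exp_log hT0]
        have h2 : (6:ℝ) ≤ Real.exp 2 := by
          have h3 := Real.exp_one_gt_d9
          have h4 : Real.exp 2 = Real.exp 1 * Real.exp 1 := by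
            rw [← Real.exp_add]; norm_num
          rw [h4]
          nlinarith
        have h7 : |t| ≤ 2 * T := by
          rw [abs_le]; constructor <;> linarith [ht.1, ht.2]
        nlinarith
      have := hpt ℓ t hℓ1' h6 ∅ (by simp) z (by rw [mul_div_assoc]; exact hz)
      simpa using this)
  have htail : ∫ u in (Icc (-T) (2 * T))ᶜ, a u / W u ≤ 2 * Real.pi * Cst := by
    calc ∫ u in (Icc (-T) (2 * T))ᶜ, a u / W u ≤ ∫ u in (Icc (-T) (2 * T))ᶜ, g u :=
          setIntegral_mono_on hint0.integrableOn hgi.integrableOn measurableSet_Icc.compl fun u hu => hout2 u hu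
      _ ≤ ∫ u, g u := setIntegral_le_integral hgi (Eventually.of_forall hg0)
      _ = _ := hgv
  set ME : ℝ := ∫ u in E ∩ Q, a u with hME
  have hME0 : 0 ≤ ME := integral_nonneg fun u => ha0 u
  have hIE : ∫ u in E, a u / W u ≤ ME + 2 * Real.pi * Cst := by
    calc ∫ u in E, a u / W u ≤ ∫ u in E, (Q.indicator a u + g u) :=
          setIntegral_mono_on hint0.integrableOn (hai.add hgi).integrableOn hE fun u _ => hall u
      _ = (∫ u in E, Q.indicator a u) + ∫ u in E, g u :=
          integral_add hai.integrableOn hgi.integrableOn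
      _ ≤ ME + 2 * Real.pi * Cst := by
          refine add_le_add (le_of_eq ?_) ?_
          · rw [integral_indicator measurableSet_Icc, Measure.restrict_restrict measurableSet_Icc, inter_comm]
          · rw [← hgv]
            exact setIntegral_le_integral hgi (Eventually.of_forall hg0)
  calc ∫ u, a u / W u ≤ C2 * (∫ u in E, a u / W u) + 2 * ∫ u in (Icc (-T) (2 * T))ᶜ, a u / W u := key
    _ ≤ C2 * (ME + 2 * Real.pi * Cst) + 2 * (2 * Real.pi * Cst) := by
        refine add_le_add (mul_le_mul_of_nonneg_left hIE hC2) (by linarith)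
    _ ≤ (C2 + C2 * (2 * Real.pi * Cst) + 4 * Real.pi * Cst) * (ME + 1) := by
        have h1 : 0 ≤ C2 * (2 * Real.pi * Cst) * ME := by positivity
        have h2 : 0 ≤ 4 * Real.pi * Cst * ME := by positivity
        nlinarith

end Pool.Agent.K4H72.TS
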